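import Mathlib
import Pool.Agent.TH915.PW.Disc

/-!
Points in boxes modulo one, from exponential sums, in any dimension.
-/

set_option autoImplicit false

open Finset

namespace Pool.Agent.T2h20.GB

open Pool.Agent.H469R2.NK (e norm_e e_add e_zero)
open Pool.Agent.TH915.PW (sum_char e_int e_sub e_natmul parseval sq_expand kernel_small)

lemma e_sum {κ : Type*} (t : Finset κ) (f : κ → ℝ) : e (∑ l ∈ t, f l) = ∏ l ∈ t, e (f l) := by
  classical
  induction t using Finset.induction_on with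
  | empty => rw [sum_empty, prod_empty, e_zero]
  | insert a t ha ih => rw [sum_insert ha, prod_insert ha, e_add, ih]

/-- the sum of the product kernel over the points -/
lemma sum_kernelD {ι κ : Type*} [Fintype κ] [DecidableEq κ] (s : Finset ι) (y : ι → κ → ℝ) (H : ℕ)
    (E : ℝ) (hE0 : 0 ≤ E)
    (hE : ∀ h : κ → ℤ, h ≠ 0 → (∀ l, |h l| < (H : ℤ)) → ‖∑ i ∈ s, e (∑ l, (h l : ℝ) * y i l)‖ ≤ E)
    (c : κ → ℝ) :
    (H : ℝ) ^ Fintype.card κ * s.card - (H : ℝ) ^ (2 * Fintype.card κ) * E ≤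
      ∑ i ∈ s, ∏ l, ‖∑ j ∈ range H, e (j * (y i l - c l))‖ ^ 2 := by
  classical
  obtain ⟨Q, hQ⟩ : ∃ Q : Finset (κ → ℕ × ℕ), Q = Fintype.piFinset fun _ => range H ×ˢ range H :=
    ⟨_, rfl⟩
  obtain ⟨hh, hhh⟩ : ∃ hh : (κ → ℕ × ℕ) → κ → ℤ, hh = fun f l => ((f l).1 : ℤ) - ((f l).2 : ℤ) :=
    ⟨_, rfl⟩
  have h0 : ((∑ i ∈ s, ∏ l, ‖∑ j ∈ range H, e (j * (y i l - c l))‖ ^ 2 : ℝ) : ℂ) =
      ∑ f ∈ Q, e (-(∑ l, (hh f l : ℝ) * c l)) * ∑ i ∈ s, e (∑ l, (hh f l : ℝ) * y i l) := by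
    rw [Complex.ofReal_sum]
    have h1 : ∀ i ∈ s, ((∏ l, ‖∑ j ∈ range H, e (j * (y i l - c l))‖ ^ 2 : ℝ) : ℂ) =
        ∑ f ∈ Q, e (∑ l, (hh f l : ℝ) * (y i l - c l)) := by
      intro i _
      rw [Complex.ofReal_prod]
      have h2 : ∀ l : κ, ((‖∑ j ∈ range H, e (j * (y i l - c l))‖ ^ 2 : ℝ) : ℂ) =
          ∑ z ∈ range H ×ˢ range H, e (((z.1 : ℤ) - (z.2 : ℤ) : ℤ) * (y i l - c l)) := by
        intro l
        rw [sq_expand, sum_product]
      rw [prod_congr rfl fun l _ => h2 l, prod_univ_sum, hQ]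
      refine sum_congr rfl fun f _ => ?_
      rw [e_sum, hhh]
    rw [sum_congr rfl h1, sum_comm]
    refine sum_congr rfl fun f _ => ?_
    rw [mul_sum]
    refine sum_congr rfl fun i _ => ?_
    rw [← e_add]
    congr 1
    rw [← sum_neg_distrib, ← sum_add_distrib]
    exact sum_congr rfl fun l _ => by ring
  have h3 : ∑ i ∈ s, ∏ l, ‖∑ j ∈ range H, e (j * (y i l - c l))‖ ^ 2 =
      ∑ f ∈ Q, (e (-(∑ l, (hh f l : ℝ) * c l)) * ∑ i ∈ s, e (∑ l, (hh f l : ℝ) * y i l)).re := by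
    rw [← Complex.re_sum, ← h0, Complex.ofReal_re]
  have h4 : ∀ f ∈ Q, (if hh f = 0 then (s.card : ℝ) else 0) - E ≤
      (e (-(∑ l, (hh f l : ℝ) * c l)) * ∑ i ∈ s, e (∑ l, (hh f l : ℝ) * y i l)).re := by
    intro f hf
    split_ifs with h
    · rw [h]
      simp only [Pi.zero_apply, Int.cast_zero, zero_mul, sum_const_zero, neg_zero, e_zero, one_mul,
        sum_const, nsmul_eq_mul, mul_one, Complex.natCast_re]
      linarith
    · have h5 : ‖e (-(∑ l, (hh f l : ℝ) * c l)) * ∑ i ∈ s, e (∑ l, (hh f l : ℝ) * y i l)‖ ≤ E := by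
        rw [norm_mul, norm_e, one_mul]
        refine hE _ h fun l => ?_
        rw [hQ, Fintype.mem_piFinset] at hf
        have h6 := hf l
        rw [mem_product, mem_range, mem_range] at h6
        rw [hhh]
        simp only
        rw [abs_lt]
        constructor <;> omega
      have h7 := (abs_le.1 ((Complex.abs_re_le_norm _).trans h5)).1
      linarith
  rw [h3]
  refine le_trans ?_ (sum_le_sum h4)
  rw [sum_sub_distrib, ← sum_filter, sum_const, sum_const, nsmul_eq_mul, nsmul_eq_mul]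
  have h8 : (Q.card : ℝ) = (H : ℝ) ^ (2 * Fintype.card κ) := by
    rw [hQ, Fintype.card_piFinset, prod_const, card_product, card_range, card_univ]
    push_cast
    rw [← pow_two, ← pow_mul]
  have h9 : H ^ Fintype.card κ ≤ (Q.filter fun f => hh f = 0).card := by
    have h10 : (Fintype.piFinset fun _ : κ => range H).image (fun g l => ((g l, g l) : ℕ × ℕ)) ⊆
        Q.filter fun f => hh f = 0 := by
      intro f hf
      rw [mem_image] at hf
      obtain ⟨g, hg, rfl⟩ := hf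
      rw [Fintype.mem_piFinset] at hg
      rw [mem_filter, hQ, Fintype.mem_piFinset]
      refine ⟨fun l => mem_product.2 ⟨hg l, hg l⟩, ?_⟩
      rw [hhh]
      funext l
      simp
    have h11 := card_le_card h10
    rw [card_image_of_injective _ (fun g g' h => by
      funext l
      have := congrFun h l
      exact (Prod.ext_iff.1 this).1), Fintype.card_piFinset, prod_const, card_range,
      card_univ] at h11
    exact h11
  rw [h8]
  have h12 : (H : ℝ) ^ Fintype.card κ ≤ ((Q.filter fun f => hh f = 0).card : ℝ) := by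
    exact_mod_cast h9
  have h13 : (0 : ℝ) ≤ s.card := Nat.cast_nonneg _
  nlinarith

/-- the centers -/
lemma centers (K : ℕ) (hK : 1 ≤ K) (a b : ℝ) (ha : 0 ≤ a) (hb : b ≤ 1) :
    ∃ I : Finset ℕ, (∀ r ∈ I, r < K ^ 3) ∧ ((K : ℝ) ^ 3) * (b - a) - 3 * (K : ℝ) ^ 2 ≤ I.card ∧
      (∀ y : ℝ, ∑ r ∈ I, ‖∑ j ∈ range (K ^ 3), e (j * (y - r / ((K ^ 3 : ℕ) : ℝ)))‖ ^ 2 ≤
        ((K : ℝ) ^ 3) ^ 2) ∧
      (∀ y : ℝ, ¬ (a ≤ Int.fract y ∧ Int.fract y < b) →
        ∑ r ∈ I, ‖∑ j ∈ range (K ^ 3), e (j * (y - r / ((K ^ 3 : ℕ) : ℝ)))‖ ^ 2 ≤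
          ((K : ℝ) ^ 3) ^ 2 * (4 / K)) := by
  classical
  have hK1 : (1 : ℝ) ≤ K := by exact_mod_cast hK
  have hK0 : (0 : ℝ) < K := by linarith
  set H : ℕ := K ^ 3 with hH
  have hH1 : 1 ≤ H := Nat.one_le_pow _ _ hK
  have hHr : (H : ℝ) = (K : ℝ) ^ 3 := by rw [hH]; push_cast; rfl
  have hH0 : (0 : ℝ) < H := by rw [hHr]; positivity
  set δ : ℝ := 1 / K with hδ
  have hδ0 : 0 < δ := by positivity
  set I : Finset ℕ := (range H).filter (fun r => a + δ ≤ (r : ℝ) / H ∧ (r : ℝ) / H ≤ b - δ) with hI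
  have hIcard : (H : ℝ) * (b - a - 2 * δ) - 1 ≤ I.card := by
    have h1 : Finset.Icc ⌈H * (a + δ)⌉₊ ⌊H * (b - δ)⌋₊ ⊆ I := by
      intro r hr
      rw [Finset.mem_Icc] at hr
      have hr1 : H * (a + δ) ≤ r := Nat.ceil_le.mp hr.1
      have hr0 : 0 < H * (a + δ) := by positivity
      have hr2 : (r : ℝ) ≤ H * (b - δ) := by
        have hpos : 1 ≤ r := by
          have : (0 : ℝ) < r := by linarith
          exact_mod_cast this
        have h5 : ⌊H * (b - δ)⌋₊ ≠ 0 := by omega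
        have h6 := (Nat.le_floor_iff' (by omega)).mp hr.2
        exact h6
      rw [hI, Finset.mem_filter, Finset.mem_range]
      refine ⟨?_, ?_, ?_⟩
      · have : (r : ℝ) < H := by nlinarith
        exact_mod_cast this
      · rw [le_div_iff₀ hH0]; linarith
      · rw [div_le_iff₀ hH0]; linarith
    have h2 := Finset.card_le_card h1
    rw [Nat.card_Icc] at h2
    rcases le_or_gt (b - δ) 0 with h3 | h3
    · have : (H : ℝ) * (b - a - 2 * δ) ≤ 0 := by
        apply mul_nonpos_of_nonneg_of_nonpos hH0.le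
        linarith
      have h4 : (0 : ℝ) ≤ I.card := Nat.cast_nonneg _
      linarith
    · have h4 : (H : ℝ) * (b - δ) < ⌊H * (b - δ)⌋₊ + 1 := Nat.lt_floor_add_one _
      have h5 : (⌈H * (a + δ)⌉₊ : ℝ) < H * (a + δ) + 1 := Nat.ceil_lt_add_one (by positivity)
      have h6 : (⌊H * (b - δ)⌋₊ : ℝ) + 1 - ⌈H * (a + δ)⌉₊ ≤ I.card := by
        have : ⌊H * (b - δ)⌋₊ + 1 ≤ I.card + ⌈H * (a + δ)⌉₊ := by omega
        have h7 : ((⌊H * (b - δ)⌋₊ + 1 : ℕ) : ℝ) ≤ ((I.card + ⌈H * (a + δ)⌉₊ : ℕ) : ℝ) := by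
          exact_mod_cast this
        push_cast at h7
        linarith
      nlinarith
  have hIle : (I.card : ℝ) ≤ H := by
    have := Finset.card_filter_le (range H) (fun r : ℕ => a + δ ≤ (r : ℝ) / H ∧ (r : ℝ) / H ≤ b - δ)
    rw [card_range] at this
    exact_mod_cast this
  refine ⟨I, ?_, ?_, ?_, ?_⟩
  · intro r hr
    rw [hI, mem_filter, mem_range] at hr
    exact hr.1
  · refine le_trans ?_ hIcard
    rw [hHr, hδ]
    have h1 : (K : ℝ) ^ 3 * (b - a - 2 * (1 / K)) = (K : ℝ) ^ 3 * (b - a) - 2 * (K : ℝ) ^ 2 := by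
      field_simp
    rw [h1]
    have h2 : (1 : ℝ) ≤ (K : ℝ) ^ 2 := one_le_pow₀ hK1
    linarith
  · intro y
    have h1 := parseval H H hH1 le_rfl y
    rw [hHr] at h1
    rw [pow_two ((K : ℝ) ^ 3), ← h1, ← hHr]
    apply Finset.sum_le_sum_of_subset_of_nonneg (Finset.filter_subset _ _)
    intro r _ _
    positivity
  · intro y hy
    have h1 : ∀ r ∈ I, ‖∑ j ∈ range H, e (j * (y - r / H))‖ ^ 2 ≤ 4 * (K : ℝ) ^ 2 := by
      intro r hr
      rw [hI, Finset.mem_filter, Finset.mem_range] at hr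
      obtain ⟨_, h2, h3⟩ := hr
      have h4 : 4 / δ ^ 2 = 4 * (K : ℝ) ^ 2 := by rw [hδ]; field_simp
      rw [← h4]
      set c : ℝ := (r : ℝ) / H with hc
      have hf0 := Int.fract_nonneg y
      have hf1 := Int.fract_lt_one y
      rcases lt_or_ge (Int.fract y) a with h5 | h5
      · have h6 : Int.fract (y - c) = Int.fract y - c + 1 := by
          rw [Int.fract_eq_iff]
          refine ⟨by linarith, by linarith, ⌊y⌋ - 1, ?_⟩
          have := Int.self_sub_floor y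
          push_cast
          linarith
        apply kernel_small _ _ _ hδ0
        · rw [h6]; linarith
        · rw [h6]; linarith
      · have h5' : b ≤ Int.fract y := by
          by_contra hcon
          exact hy ⟨h5, not_le.mp hcon⟩
        have h6 : Int.fract (y - c) = Int.fract y - c := by
          rw [Int.fract_eq_iff]
          refine ⟨by linarith, by linarith, ⌊y⌋, ?_⟩
          have := Int.self_sub_floor y
          linarith
        apply kernel_small _ _ _ hδ0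
        · rw [h6]; linarith
        · rw [h6]; linarith
    calc ∑ r ∈ I, ‖∑ j ∈ range H, e (j * (y - r / H))‖ ^ 2 ≤ ∑ r ∈ I, 4 * (K : ℝ) ^ 2 :=
          Finset.sum_le_sum h1
      _ = I.card * (4 * (K : ℝ) ^ 2) := by rw [sum_const, nsmul_eq_mul]
      _ ≤ H * (4 * (K : ℝ) ^ 2) := by gcongr
      _ = _ := by rw [hHr]; field_simp

lemma prod_ge {κ : Type*} (t : Finset κ) (x y : κ → ℝ) (r : ℝ) (hr : 0 ≤ r)
    (hx0 : ∀ l ∈ t, 0 ≤ x l) (hx1 : ∀ l ∈ t, x l ≤ 1) (hy0 : ∀ l ∈ t, 0 ≤ y l)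
    (hy1 : ∀ l ∈ t, y l ≤ 1) (h : ∀ l ∈ t, y l - r ≤ x l) :
    ∏ l ∈ t, y l - t.card * r ≤ ∏ l ∈ t, x l := by
  classical
  induction t using Finset.induction_on with
  | empty => simp
  | insert a t ha ih =>
    rw [prod_insert ha, prod_insert ha, card_insert_of_notMem ha]
    have h1 := ih (fun l hl => hx0 l (mem_insert_of_mem hl)) (fun l hl => hx1 l (mem_insert_of_mem hl))
      (fun l hl => hy0 l (mem_insert_of_mem hl)) (fun l hl => hy1 l (mem_insert_of_mem hl))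
      (fun l hl => h l (mem_insert_of_mem hl))
    have ha' := mem_insert_self a t
    have h2 := h a ha'
    have h3 : ∏ l ∈ t, y l ≤ 1 := prod_le_one (fun l hl => hy0 l (mem_insert_of_mem hl))
      (fun l hl => hy1 l (mem_insert_of_mem hl))
    have h4 : 0 ≤ ∏ l ∈ t, y l := prod_nonneg (fun l hl => hy0 l (mem_insert_of_mem hl))
    have h5 : 0 ≤ ∏ l ∈ t, x l := prod_nonneg (fun l hl => hx0 l (mem_insert_of_mem hl))
    have h6 := hx0 a ha'
    have h7 := hx1 a ha'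
    have h8 := hy0 a ha'
    have h9 : (0 : ℝ) ≤ t.card * r := mul_nonneg (Nat.cast_nonneg _) hr
    push_cast
    -- y a * Y - (t+1) r ≤ x a * X
    have h10 : x a * (∏ l ∈ t, y l - t.card * r) ≤ x a * ∏ l ∈ t, x l :=
      mul_le_mul_of_nonneg_left h1 h6
    have h11 : (y a - x a) * ∏ l ∈ t, y l ≤ r := by
      rcases le_or_gt (y a - x a) 0 with h12 | h12
      · exact (mul_nonpos_of_nonpos_of_nonneg h12 h4).trans hr
      · calc (y a - x a) * ∏ l ∈ t, y l ≤ (y a - x a) * 1 := mul_le_mul_of_nonneg_left h3 h12.le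
          _ ≤ r := by linarith
    have h13 : x a * (t.card * r) ≤ t.card * r := mul_le_of_le_one_left h9 h7
    nlinarith

/-- lower bound for the number of points in a box -/
theorem disc_lowD {ι κ : Type*} [Fintype κ] [DecidableEq κ] (s : Finset ι) (y : ι → κ → ℝ) (K : ℕ)
    (hK : 1 ≤ K) (E : ℝ) (hE0 : 0 ≤ E)
    (hE : ∀ h : κ → ℤ, h ≠ 0 → (∀ l, |h l| < ((K ^ 3 : ℕ) : ℤ)) →
      ‖∑ i ∈ s, e (∑ l, (h l : ℝ) * y i l)‖ ≤ E) (a b : κ → ℝ)
    (ha : ∀ l, 0 ≤ a l) (hab : ∀ l, a l ≤ b l) (hb : ∀ l, b l ≤ 1) :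
    (s.card : ℝ) * ∏ l, (b l - a l) - (3 * Fintype.card κ + 4) * (s.card / K) -
        (K : ℝ) ^ (3 * Fintype.card κ) * E ≤
      ((s.filter (fun i => ∀ l, a l ≤ Int.fract (y i l) ∧ Int.fract (y i l) < b l)).card : ℝ) := by
  classical
  have hK1 : (1 : ℝ) ≤ K := by exact_mod_cast hK
  have hK0 : (0 : ℝ) < K := by linarith
  choose I hI1 hI2 hI3 hI4 using fun l : κ => centers K hK (a l) (b l) (ha l) (hb l)
  obtain ⟨d, hd⟩ : ∃ d : ℕ, d = Fintype.card κ := ⟨_, rfl⟩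
  obtain ⟨T, hT⟩ : ∃ T : ℝ, T = (K : ℝ) ^ 3 := ⟨_, rfl⟩
  have hT0 : 0 < T := by rw [hT]; positivity
  obtain ⟨n, hn⟩ : ∃ n : ℝ, n = (s.card : ℝ) := ⟨_, rfl⟩
  have hn0 : 0 ≤ n := by rw [hn]; exact Nat.cast_nonneg _
  obtain ⟨F, hF⟩ : ∃ F : ℝ → ℝ, F = fun t => ‖∑ j ∈ range (K ^ 3), e (j * t)‖ ^ 2 := ⟨_, rfl⟩
  have hF0 : ∀ t, 0 ≤ F t := by intro t; rw [hF]; positivity
  obtain ⟨W, hW⟩ : ∃ W : κ → ℝ → ℝ, W = fun l t => ∑ r ∈ I l, F (t - r / ((K ^ 3 : ℕ) : ℝ)) :=
    ⟨_, rfl⟩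
  have hW0 : ∀ l t, 0 ≤ W l t := by
    intro l t
    rw [hW]
    exact sum_nonneg fun r _ => hF0 _
  have hW1 : ∀ l t, W l t ≤ T ^ 2 := by
    intro l t
    rw [hW, hT, hF]
    exact hI3 l t
  have hW2 : ∀ l t, ¬ (a l ≤ Int.fract t ∧ Int.fract t < b l) → W l t ≤ T ^ 2 * (4 / K) := by
    intro l t h
    rw [hW, hT, hF]
    exact hI4 l t h
  obtain ⟨G, hG⟩ : ∃ G : Finset ι, G = s.filter (fun i => ∀ l, a l ≤ Int.fract (y i l) ∧
    Int.fract (y i l) < b l) := ⟨_, rfl⟩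
  rw [← hG, ← hn, ← hd]
  -- upper bound
  have hup : ∑ i ∈ s, ∏ l, W l (y i l) ≤ G.card * (T ^ 2) ^ d + n * ((T ^ 2) ^ d * (4 / K)) := by
    rw [← Finset.sum_filter_add_sum_filter_not s
      (fun i => ∀ l, a l ≤ Int.fract (y i l) ∧ Int.fract (y i l) < b l), ← hG]
    apply add_le_add
    · calc _ ≤ ∑ i ∈ G, (T ^ 2) ^ d := by
            refine Finset.sum_le_sum fun i _ => ?_
            refine (prod_le_prod (fun l _ => hW0 l _) fun l _ => hW1 l _).trans ?_
            rw [prod_const, card_univ, hd]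
        _ = _ := by rw [sum_const, nsmul_eq_mul]
    · calc _ ≤ ∑ i ∈ s.filter (fun i => ¬ ∀ l, a l ≤ Int.fract (y i l) ∧ Int.fract (y i l) < b l),
            (T ^ 2) ^ d * (4 / K) := by
            apply Finset.sum_le_sum
            intro i hi
            rw [Finset.mem_filter] at hi
            obtain ⟨l₀, hl₀⟩ := not_forall.1 hi.2
            rw [← mul_prod_erase univ _ (mem_univ l₀)]
            have h1 := hW2 l₀ _ hl₀
            have h2 : ∏ l ∈ univ.erase l₀, W l (y i l) ≤ (T ^ 2) ^ (d - 1) := by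
              refine (prod_le_prod (fun l _ => hW0 l _) fun l _ => hW1 l _).trans ?_
              rw [prod_const, card_erase_of_mem (mem_univ _), card_univ, hd]
            have hd1 : 1 ≤ d := by
              rw [hd]
              exact Fintype.card_pos_iff.2 ⟨l₀⟩
            calc W l₀ (y i l₀) * ∏ l ∈ univ.erase l₀, W l (y i l)
                ≤ (T ^ 2 * (4 / K)) * (T ^ 2) ^ (d - 1) := by
                  apply mul_le_mul h1 h2 (prod_nonneg fun l _ => hW0 l _) (by positivity)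
              _ = (T ^ 2) ^ (d - 1 + 1) * (4 / K) := by rw [pow_succ]; ring
              _ = _ := by rw [Nat.sub_add_cancel hd1]
        _ = ((s.filter (fun i => ¬ ∀ l, a l ≤ Int.fract (y i l) ∧
              Int.fract (y i l) < b l)).card : ℝ) * ((T ^ 2) ^ d * (4 / K)) := by
            rw [sum_const, nsmul_eq_mul]
        _ ≤ _ := by
            apply mul_le_mul_of_nonneg_right _ (by positivity)
            rw [hn]
            exact_mod_cast Finset.card_filter_le _ _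
  -- lower bound
  have hlow : (∏ l, ((I l).card : ℝ)) * (T ^ d * n - T ^ (2 * d) * E) ≤
      ∑ i ∈ s, ∏ l, W l (y i l) := by
    have h1 : ∑ i ∈ s, ∏ l, W l (y i l) = ∑ r ∈ Fintype.piFinset I, ∑ i ∈ s,
        ∏ l, F (y i l - (r l : ℝ) / ((K ^ 3 : ℕ) : ℝ)) := by
      rw [sum_comm]
      refine sum_congr rfl fun i _ => ?_
      rw [hW]
      simp only
      rw [prod_univ_sum]
    rw [h1]
    have h2 : ((∏ l, ((I l).card : ℝ))) = ((Fintype.piFinset I).card : ℝ) := by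
      rw [Fintype.card_piFinset]
      push_cast
      rfl
    rw [h2, ← nsmul_eq_mul, ← sum_const]
    apply Finset.sum_le_sum
    intro r _
    have h3 := sum_kernelD s y (K ^ 3) E hE0 hE (fun l => (r l : ℝ) / ((K ^ 3 : ℕ) : ℝ))
    rw [← hd, ← hn] at h3
    have h4 : ((K ^ 3 : ℕ) : ℝ) = T := by rw [hT]; push_cast; rfl
    rw [h4] at h3
    rw [hF, h4]
    exact h3
  -- combine
  have hTd : 0 < T ^ d := by positivity
  obtain ⟨Pw, hPw⟩ : ∃ Pw : ℝ, Pw = ∏ l, ((I l).card : ℝ) / T := ⟨_, rfl⟩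
  have hPwI : ∏ l, ((I l).card : ℝ) = Pw * T ^ d := by
    rw [hPw, prod_div_distrib, prod_const, card_univ, ← hd, div_mul_cancel₀ _ hTd.ne']
  have hI0 : ∀ l ∈ (univ : Finset κ), 0 ≤ ((I l).card : ℝ) / T := by intro l _; positivity
  have hIle : ∀ l ∈ (univ : Finset κ), ((I l).card : ℝ) / T ≤ 1 := by
    intro l _
    rw [div_le_one hT0, hT]
    have h1 : I l ⊆ range (K ^ 3) := fun r hr => mem_range.2 (hI1 l r hr)
    have h2 := card_le_card h1
    rw [card_range] at h2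
    exact_mod_cast h2
  have hPw1 : Pw ≤ 1 := by
    rw [hPw]
    exact prod_le_one hI0 hIle
  have hPw0 : 0 ≤ Pw := by
    rw [hPw]
    exact prod_nonneg hI0
  have hPwge : ∏ l, (b l - a l) - d * (3 / K) ≤ Pw := by
    rw [hPw, hd, ← card_univ]
    apply prod_ge _ _ _ _ (by positivity) hI0 hIle
    · intro l _; linarith [hab l]
    · intro l _; linarith [ha l, hb l]
    · intro l _
      rw [le_div_iff₀ hT0]
      refine le_trans (le_of_eq ?_) (hI2 l)
      rw [hT]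
      field_simp
  have h1 := hlow.trans hup
  rw [hPwI] at h1
  have h2 : (T ^ 2) ^ d * (Pw * n - T ^ d * E * Pw) ≤
      (T ^ 2) ^ d * (G.card + n * (4 / K)) := by
    have e1 : (T ^ 2) ^ d = T ^ d * T ^ d := by rw [← pow_mul, two_mul, pow_add]
    have e2 : T ^ (2 * d) = T ^ d * T ^ d := by rw [two_mul, pow_add]
    rw [e2, e1] at h1
    rw [e1]
    calc _ = Pw * T ^ d * (T ^ d * n - T ^ d * T ^ d * E) := by ring
      _ ≤ _ := h1
      _ = _ := by ring
  have h3 := le_of_mul_le_mul_left h2 (by positivity)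
  have h4 : T ^ d * E * Pw ≤ T ^ d * E := mul_le_of_le_one_right (by positivity) hPw1
  have h5 : (∏ l, (b l - a l) - d * (3 / K)) * n ≤ Pw * n := mul_le_mul_of_nonneg_right hPwge hn0
  have h6 : T ^ d = (K : ℝ) ^ (3 * d) := by rw [hT, pow_mul]
  rw [← h6]
  have h7 : (3 * (d : ℝ) + 4) * (n / K) = d * (3 / K) * n + n * (4 / K) := by ring
  rw [h7]
  nlinarith

/-- the number of points in a box -/
theorem discD {ι κ : Type*} [Fintype κ] [DecidableEq κ] (s : Finset ι) (y : ι → κ → ℝ) (K : ℕ)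
    (hK : 1 ≤ K) (E : ℝ) (hE0 : 0 ≤ E)
    (hE : ∀ h : κ → ℤ, h ≠ 0 → (∀ l, |h l| < ((K ^ 3 : ℕ) : ℤ)) →
      ‖∑ i ∈ s, e (∑ l, (h l : ℝ) * y i l)‖ ≤ E) (a b : κ → ℝ)
    (ha : ∀ l, 0 ≤ a l) (hab : ∀ l, a l ≤ b l) (hb : ∀ l, b l ≤ 1) :
    |((s.filter (fun i => ∀ l, a l ≤ Int.fract (y i l) ∧ Int.fract (y i l) < b l)).card : ℝ) -
      (s.card : ℝ) * ∏ l, (b l - a l)| ≤
      3 ^ Fintype.card κ * ((3 * Fintype.card κ + 4) * (s.card / K) +
        (K : ℝ) ^ (3 * Fintype.card κ) * E) := by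
  classical
  obtain ⟨err, herr⟩ : ∃ err : ℝ, err = (3 * Fintype.card κ + 4) * (s.card / K) +
        (K : ℝ) ^ (3 * Fintype.card κ) * E := ⟨_, rfl⟩
  have herr0 : 0 ≤ err := by rw [herr]; positivity
  rw [← herr]
  -- the boxes
  obtain ⟨A, hA⟩ : ∃ A : κ → Fin 3 → ℝ, A = fun l => ![0, a l, b l] := ⟨_, rfl⟩
  obtain ⟨B, hB⟩ : ∃ B : κ → Fin 3 → ℝ, B = fun l => ![a l, b l, 1] := ⟨_, rfl⟩
  obtain ⟨cnt, hcnt⟩ : ∃ cnt : (κ → Fin 3) → ℝ, cnt = fun σ =>
    ((s.filter (fun i => ∀ l, A l (σ l) ≤ Int.fract (y i l) ∧ Int.fract (y i l) < B l (σ l))).card : ℝ) :=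
    ⟨_, rfl⟩
  have hlow : ∀ σ : κ → Fin 3, (s.card : ℝ) * ∏ l, (B l (σ l) - A l (σ l)) - err ≤ cnt σ := by
    intro σ
    have h1 := disc_lowD s y K hK E hE0 hE (fun l => A l (σ l)) (fun l => B l (σ l)) ?_ ?_ ?_
    · rw [herr, hcnt]
      linarith
    · intro l
      rw [hA]
      have := ha l
      have := hab l
      generalize σ l = t
      fin_cases t <;> simp <;> linarith
    · intro l
      rw [hA, hB]
      have := ha l
      have := hab l
      have := hb l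
      generalize σ l = t
      fin_cases t <;> simp <;> linarith
    · intro l
      rw [hB]
      have := ha l
      have := hab l
      have := hb l
      generalize σ l = t
      fin_cases t <;> simp <;> linarith
  -- total
  have htot : ∑ σ : κ → Fin 3, cnt σ ≤ s.card := by
    rw [hcnt]
    simp only
    rw [← Nat.cast_sum, Nat.cast_le, ← card_biUnion]
    · apply card_le_card
      intro i hi
      rw [mem_biUnion] at hi
      obtain ⟨σ, _, hσ⟩ := hi
      rw [mem_filter] at hσ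
      exact hσ.1
    · intro σ _ τ _ hστ
      rw [Function.onFun, disjoint_left]
      intro i hi hi'
      rw [mem_filter] at hi hi'
      apply hστ
      funext l
      obtain ⟨h1a, h1b⟩ := hi.2 l
      obtain ⟨h2a, h2b⟩ := hi'.2 l
      rw [hA] at h1a h2a
      rw [hB] at h1b h2b
      have := ha l
      have := hab l
      have := hb l
      generalize σ l = t at h1a h1b ⊢
      generalize τ l = u at h2a h2b ⊢
      fin_cases t <;> fin_cases u <;> first | rfl | (exfalso; simp at h1a h1b h2a h2b; linarith)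
  have hw : ∑ σ : κ → Fin 3, ∏ l, (B l (σ l) - A l (σ l)) = 1 := by
    have h1 := Finset.prod_univ_sum (fun _ : κ => (univ : Finset (Fin 3)))
      (fun l t => B l t - A l t)
    rw [Fintype.piFinset_univ] at h1
    rw [← h1]
    apply prod_eq_one
    intro l _
    rw [hA, hB, Fin.sum_univ_three]
    simp
  have hcard : (Finset.univ : Finset (κ → Fin 3)).card = 3 ^ Fintype.card κ := by
    rw [card_univ, Fintype.card_fun, Fintype.card_fin]
  -- the box itself
  have hσ : cnt (fun _ => 1) =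
      ((s.filter (fun i => ∀ l, a l ≤ Int.fract (y i l) ∧ Int.fract (y i l) < b l)).card : ℝ) := by
    rw [hcnt]
    simp only
    rw [Nat.cast_inj]
    apply congrArg card
    ext i
    rw [mem_filter, mem_filter, hA, hB]
    simp only [Matrix.cons_val_one, Matrix.cons_val_zero]
  have hσw : ∏ l, (B l ((fun _ => 1 : κ → Fin 3) l) - A l ((fun _ => 1 : κ → Fin 3) l)) =
      ∏ l, (b l - a l) := by
    rw [hA, hB]
    simp
  have h1 := hlow (fun _ => 1)
  rw [hσ, hσw] at h1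
  have h3pow : (1 : ℝ) ≤ 3 ^ Fintype.card κ := one_le_pow₀ (by norm_num)
  rw [abs_le]
  constructor
  · nlinarith
  · have h2 : ∑ σ ∈ univ.erase (fun _ => 1 : κ → Fin 3),
        ((s.card : ℝ) * ∏ l, (B l (σ l) - A l (σ l)) - err) ≤
        ∑ σ ∈ univ.erase (fun _ => 1 : κ → Fin 3), cnt σ := sum_le_sum fun σ _ => hlow σ
    have h3 := add_sum_erase univ cnt (mem_univ (fun _ => 1 : κ → Fin 3))
    have h4 := add_sum_erase univ (fun σ : κ → Fin 3 => (s.card : ℝ) *
      ∏ l, (B l (σ l) - A l (σ l)) - err) (mem_univ (fun _ => 1 : κ → Fin 3))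
    have h5 : ∑ σ : κ → Fin 3, ((s.card : ℝ) * ∏ l, (B l (σ l) - A l (σ l)) - err) =
        s.card - 3 ^ Fintype.card κ * err := by
      rw [sum_sub_distrib, ← mul_sum, hw, mul_one, sum_const, hcard, nsmul_eq_mul]
      push_cast
      rfl
    rw [h5, hσw] at h4
    rw [hσ] at h3
    linarith

end Pool.Agent.T2h20.GB
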