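import Mathlib
import Pool.Agent.Z3h92.Equi

/-!
The exponential sum over the primes at two points with a generic difference.
-/

set_option autoImplicit false

open Finset

namespace Pool.Agent.T2h20.GB

open Pool.Agent.W301.SS (SL VB vino)
open Pool.Agent.H469R2.NK (e norm_e e_add e_zero)
open Pool.Agent.Z3h92 (Dio log_pow_le prime_exp)

/-- the primes up to `N` -/
noncomputable def PP (N : ℕ) : Finset ℕ := (range (N + 1)).filter Nat.Prime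

/-- the exponential sum over the primes -/
noncomputable def S (N : ℕ) (y : ℝ) : ℂ := ∑ p ∈ PP N, e (p * y)

lemma card_PP (N : ℕ) : (PP N).card ≤ N := by
  have h1 : PP N ⊆ Icc 1 N := by
    intro p hp
    rw [PP, mem_filter, mem_range] at hp
    rw [mem_Icc]
    exact ⟨hp.2.one_lt.le, by omega⟩
  exact (card_le_card h1).trans (by simp)

lemma mem_PP {N p : ℕ} : p ∈ PP N ↔ p ≤ N ∧ p.Prime := by
  rw [PP, mem_filter, mem_range, Nat.lt_succ_iff]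

lemma norm_S_le (N : ℕ) (y : ℝ) : ‖S N y‖ ≤ N := by
  unfold S
  refine (norm_sum_le _ _).trans ?_
  simp only [norm_e, sum_const, nsmul_eq_mul, mul_one]
  exact_mod_cast card_PP N

/-- minor arcs -/
theorem minor (κ : ℝ) (hκ : 0 < κ) (hκ1 : κ ≤ 1 / 4) : ∃ C : ℝ, 1 ≤ C ∧
    ∀ (N : ℕ) (y : ℝ) (D : ℕ) (z : ℤ), 1 ≤ N → 0 < D → IsCoprime z (D : ℤ) →
      |y - z / D| ≤ 1 / (D : ℝ) ^ 2 → (N : ℝ) ^ κ ≤ D → (D : ℝ) ≤ (N : ℝ) ^ (1 - κ) →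
      ‖S N y‖ ≤ C * (N : ℝ) ^ (1 - κ / 4) := by
  obtain ⟨C₁, hC₁, hv⟩ := vino
  obtain ⟨C₂, hC₂, hlog⟩ := log_pow_le (κ / 4) (by positivity)
  refine ⟨2 * (3 * C₁ * C₂ + 8), by nlinarith [mul_pos hC₁ hC₂], ?_⟩
  intro N y D z hN hD0 hcop hap1 hDge hDle
  have hN1 : (1 : ℝ) ≤ N := by exact_mod_cast hN
  have hN0 : (0 : ℝ) < N := by linarith
  have hDR : (0 : ℝ) < D := by exact_mod_cast hD0
  rcases Nat.lt_or_ge N 2 with hN2 | hN2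
  · have hN' : N = 1 := by omega
    have hs0 : PP N = ∅ := by
      rw [PP, hN']
      decide
    rw [S, hs0, sum_empty, norm_zero]
    positivity
  have hSL : ∀ m : ℕ, 1 ≤ m → m ≤ N → ‖SL m y‖ ≤ 3 * C₁ * C₂ * (N : ℝ) ^ (1 - κ / 4) := by
    intro m hm hmN
    have hmR : (m : ℝ) ≤ N := by exact_mod_cast hmN
    have hm1 : (1 : ℝ) ≤ m := by exact_mod_cast hm
    refine (hv m D hm hD0 z hcop y hap1).trans ?_
    have h3 : (1 + Real.log m) ^ 7 ≤ C₂ * (N : ℝ) ^ (κ / 4) := by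
      refine le_trans (pow_le_pow_left₀ ?_ ?_ 7) (hlog N hN)
      · have := Real.log_nonneg hm1; linarith
      · have := Real.log_le_log (by linarith) hmR; linarith
    have h4 : VB m D ≤ 3 * (N : ℝ) ^ (1 - κ / 2) := by
      refine (Pool.Agent.W301.SS.VB_mono (by positivity) hmR hDR).trans ?_
      unfold VB
      have h5 : (N : ℝ) / √(D : ℝ) ≤ (N : ℝ) ^ (1 - κ / 2) := by
        rw [div_le_iff₀ (Real.sqrt_pos.2 hDR)]
        have h6 : (N : ℝ) ^ (κ / 2) ≤ √(D : ℝ) := by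
          apply Real.le_sqrt_of_sq_le
          rw [← Real.rpow_natCast, ← Real.rpow_mul hN0.le]
          convert hDge using 2
          push_cast; ring
        calc (N : ℝ) = (N : ℝ) ^ (1 - κ / 2) * (N : ℝ) ^ (κ / 2) := by
              rw [← Real.rpow_add hN0, sub_add_cancel, Real.rpow_one]
          _ ≤ _ := by gcongr
      have h7 : (N : ℝ) ^ (4 / 5 : ℝ) ≤ (N : ℝ) ^ (1 - κ / 2) := by
        apply Real.rpow_le_rpow_of_exponent_le hN1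
        linarith
      have h8 : √((N : ℝ) * D) ≤ (N : ℝ) ^ (1 - κ / 2) := by
        apply Real.sqrt_le_iff.2
        refine ⟨by positivity, ?_⟩
        calc (N : ℝ) * D ≤ N * (N : ℝ) ^ (1 - κ) := by gcongr
          _ = (N : ℝ) ^ (1 + (1 - κ)) := by rw [Real.rpow_add hN0, Real.rpow_one]
          _ = ((N : ℝ) ^ (1 - κ / 2)) ^ 2 := by
            rw [← Real.rpow_natCast, ← Real.rpow_mul hN0.le]
            congr 1
            push_cast; ring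
      linarith
    have hVB0 : 0 ≤ VB m D := by
      unfold VB
      positivity
    have hlm : 0 ≤ 1 + Real.log m := by have := Real.log_nonneg hm1; linarith
    calc C₁ * (1 + Real.log m) ^ 7 * VB m D
        ≤ C₁ * (C₂ * (N : ℝ) ^ (κ / 4)) * (3 * (N : ℝ) ^ (1 - κ / 2)) := by gcongr
      _ = 3 * C₁ * C₂ * ((N : ℝ) ^ (κ / 4) * (N : ℝ) ^ (1 - κ / 2)) := by ring
      _ = 3 * C₁ * C₂ * (N : ℝ) ^ (1 - κ / 4) := by
        rw [← Real.rpow_add hN0]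
        congr 2
        ring
  unfold S PP
  refine (prime_exp N hN2 y _ hSL).trans ?_
  have h9 : √(N : ℝ) * Real.log N ≤ 4 * (N : ℝ) ^ (1 - κ / 4) := by
    have h10 : Real.log N ≤ (N : ℝ) ^ (1 / 4 : ℝ) / (1 / 4) :=
      Real.log_le_rpow_div hN0.le (by norm_num)
    calc √(N : ℝ) * Real.log N ≤ (N : ℝ) ^ (1 / 2 : ℝ) * ((N : ℝ) ^ (1 / 4 : ℝ) / (1 / 4)) := by
          rw [Real.sqrt_eq_rpow]; gcongr
      _ = 4 * (N : ℝ) ^ (1 / 2 + 1 / 4 : ℝ) := by rw [Real.rpow_add hN0]; ring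
      _ ≤ 4 * (N : ℝ) ^ (1 - κ / 4) := by
        gcongr
        linarith
  nlinarith

/-- **Two points.** If `b₁ α₁ - b₂ α₂` is a small nonzero multiple of `x`, one of the sums at `α₁` and
`α₂` is small. -/
theorem two_pts (η : ℝ) (hη : 0 < η) (hη1 : η ≤ 1 / 2) : ∃ C : ℝ, 1 ≤ C ∧
    ∀ (N : ℕ) (x : ℝ), 1 ≤ N → Dio η N x → ∀ (b₁ b₂ l : ℤ) (α₁ α₂ : ℝ), l ≠ 0 →
      |(b₁ : ℝ)| ≤ (N : ℝ) ^ (η / 8) → |(b₂ : ℝ)| ≤ (N : ℝ) ^ (η / 8) →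
      |(l : ℝ)| ≤ (N : ℝ) ^ (η / 8) → b₁ * α₁ - b₂ * α₂ = l * x →
      ‖S N α₁‖ ≤ C * (N : ℝ) ^ (1 - η / 16) ∨ ‖S N α₂‖ ≤ C * (N : ℝ) ^ (1 - η / 16) := by
  obtain ⟨C, hC, hmin⟩ := minor (η / 4) (by positivity) (by linarith)
  refine ⟨2 * C, by linarith, ?_⟩
  intro N x hN hD b₁ b₂ l α₁ α₂ hl hb₁ hb₂ hlle hx
  have hN1 : (1 : ℝ) ≤ N := by exact_mod_cast hN
  have hN0 : (0 : ℝ) < N := by linarith
  have hpow0 : (0 : ℝ) < (N : ℝ) ^ (1 - η / 16) := Real.rpow_pos_of_pos hN0 _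
  have hCge : C * (N : ℝ) ^ (1 - η / 16) ≤ 2 * C * (N : ℝ) ^ (1 - η / 16) := by
    nlinarith [mul_pos (by linarith : (0 : ℝ) < C) hpow0]
  have hexp : (1 : ℝ) - η / 4 / 4 = 1 - η / 16 := by ring
  obtain ⟨n, hn⟩ : ∃ n : ℕ, n = ⌊(N : ℝ) ^ (1 - η / 4)⌋₊ := ⟨_, rfl⟩
  have hn0 : 0 < n := by
    rw [hn]
    apply Nat.floor_pos.2
    exact Real.one_le_rpow hN1 (by linarith)
  have hnle : (n : ℝ) ≤ (N : ℝ) ^ (1 - η / 4) := by
    rw [hn]; exact Nat.floor_le (by positivity)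
  have hnge : (N : ℝ) ^ (1 - η / 4) ≤ n + 1 := by
    rw [hn]; exact (Nat.lt_floor_add_one _).le
  obtain ⟨z₁, D₁, hD1, hDn1, hcop1, hap1, hap1'⟩ :=
    Pool.Agent.TH915.PW.approx_of_dirichlet α₁ n hn0
  obtain ⟨z₂, D₂, hD2, hDn2, hcop2, hap2, hap2'⟩ :=
    Pool.Agent.TH915.PW.approx_of_dirichlet α₂ n hn0
  have hD1R : (0 : ℝ) < D₁ := by exact_mod_cast hD1
  have hD2R : (0 : ℝ) < D₂ := by exact_mod_cast hD2
  rcases le_or_gt ((N : ℝ) ^ (η / 4)) D₁ with h1 | h1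
  · left
    have := hmin N α₁ D₁ z₁ hN hD1 hcop1 hap1 h1 (le_trans (by exact_mod_cast hDn1) hnle)
    rw [hexp] at this
    linarith
  rcases le_or_gt ((N : ℝ) ^ (η / 4)) D₂ with h2 | h2
  · right
    have := hmin N α₂ D₂ z₂ hN hD2 hcop2 hap2 h2 (le_trans (by exact_mod_cast hDn2) hnle)
    rw [hexp] at this
    linarith
  -- small `N`
  rcases lt_or_ge ((N : ℝ) ^ (3 * η / 8)) 2 with h3 | h3
  · left
    refine (norm_S_le N α₁).trans ?_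
    have h4 : (N : ℝ) ^ (η / 16) ≤ 2 := by
      refine le_trans ?_ h3.le
      apply Real.rpow_le_rpow_of_exponent_le hN1
      linarith
    have h5 : (N : ℝ) = (N : ℝ) ^ (1 - η / 16) * (N : ℝ) ^ (η / 16) := by
      rw [← Real.rpow_add hN0, sub_add_cancel, Real.rpow_one]
    calc (N : ℝ) = (N : ℝ) ^ (1 - η / 16) * (N : ℝ) ^ (η / 16) := h5
      _ ≤ (N : ℝ) ^ (1 - η / 16) * 2 := by gcongr
      _ ≤ _ := by nlinarith
  exfalso
  have hm0 : ((D₁ : ℤ) * D₂ * l) ≠ 0 := by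
    have a1 : (D₁ : ℤ) ≠ 0 := by exact_mod_cast hD1.ne'
    have a2 : (D₂ : ℤ) ≠ 0 := by exact_mod_cast hD2.ne'
    exact mul_ne_zero (mul_ne_zero a1 a2) hl
  have hmle : |(((D₁ : ℤ) * D₂ * l : ℤ) : ℝ)| ≤ (N : ℝ) ^ η := by
    push_cast
    rw [abs_mul, abs_mul, Nat.abs_cast, Nat.abs_cast]
    calc (D₁ : ℝ) * D₂ * |(l : ℝ)| ≤ (N : ℝ) ^ (η / 4) * (N : ℝ) ^ (η / 4) * (N : ℝ) ^ (η / 8) := by
          gcongr
      _ = (N : ℝ) ^ (η / 4 + η / 4 + η / 8) := by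
          rw [← Real.rpow_add hN0, ← Real.rpow_add hN0]
      _ ≤ (N : ℝ) ^ η := by
          apply Real.rpow_le_rpow_of_exponent_le hN1
          linarith
  have h4 := hD.int _ hm0 hmle (b₁ * D₂ * z₁ - b₂ * D₁ * z₂)
  have e1 : (((D₁ : ℤ) * D₂ * l : ℤ) : ℝ) * x - ((b₁ * D₂ * z₁ - b₂ * D₁ * z₂ : ℤ) : ℝ) =
      (b₁ : ℝ) * (D₂ * (D₁ * (α₁ - z₁ / D₁))) - b₂ * (D₁ * (D₂ * (α₂ - z₂ / D₂))) := by
    have h5 : (D₁ : ℝ) * (α₁ - z₁ / D₁) = D₁ * α₁ - z₁ := by field_simp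
    have h6 : (D₂ : ℝ) * (α₂ - z₂ / D₂) = D₂ * α₂ - z₂ := by field_simp
    rw [h5, h6]
    push_cast
    have h7 : (D₁ : ℝ) * D₂ * l * x = D₁ * D₂ * (l * x) := by ring
    rw [h7, ← hx]
    ring
  rw [e1] at h4
  have hbd : ∀ (b : ℤ) (D D' : ℕ) (y : ℝ) (z : ℤ), |(b : ℝ)| ≤ (N : ℝ) ^ (η / 8) → (0 : ℝ) < D →
      (D' : ℝ) < (N : ℝ) ^ (η / 4) → |y - z / D| ≤ 1 / ((n + 1) * D) →
      |(b : ℝ) * (D' * (D * (y - z / D)))| ≤ (N : ℝ) ^ (η / 8 + η / 4 + (η / 4 - 1)) := by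
    intro b D D' y z hb hD hD' hap
    rw [abs_mul, abs_mul, abs_mul, Nat.abs_cast, Nat.abs_cast]
    have h8 : (D : ℝ) * |y - z / D| ≤ (N : ℝ) ^ (η / 4 - 1) := by
      calc (D : ℝ) * |y - z / D| ≤ D * (1 / ((n + 1) * D)) := by gcongr
        _ = 1 / (n + 1) := by field_simp
        _ ≤ 1 / (N : ℝ) ^ (1 - η / 4) := one_div_le_one_div_of_le (by positivity) hnge
        _ = (N : ℝ) ^ (-(1 - η / 4)) := by rw [Real.rpow_neg hN0.le, one_div]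
        _ = _ := by congr 1; ring
    rw [Real.rpow_add hN0, Real.rpow_add hN0, mul_assoc]
    gcongr
  have h9 := hbd b₁ D₁ D₂ α₁ z₁ hb₁ hD1R h2 hap1'
  have h10 := hbd b₂ D₂ D₁ α₂ z₂ hb₂ hD2R h1 hap2'
  have h11 : 2 * (N : ℝ) ^ (η / 8 + η / 4 + (η / 4 - 1)) ≤ (N : ℝ) ^ (η - 1) := by
    calc 2 * (N : ℝ) ^ (η / 8 + η / 4 + (η / 4 - 1)) ≤
          (N : ℝ) ^ (3 * η / 8) * (N : ℝ) ^ (η / 8 + η / 4 + (η / 4 - 1)) := by gcongr
      _ = (N : ℝ) ^ (η - 1) := by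
          rw [← Real.rpow_add hN0]
          congr 1
          ring
  have h12 := abs_sub (b₁ * (D₂ * (D₁ * (α₁ - z₁ / D₁))) : ℝ) (b₂ * (D₁ * (D₂ * (α₂ - z₂ / D₂))))
  linarith

end Pool.Agent.T2h20.GB
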