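import Mathlib
import Pool.Agent.T2h20.GB.Two

/-!
Linear equations in primes twisted by linear phases.
-/

set_option autoImplicit false

open Finset

namespace Pool.Agent.T2h20.GB

open Pool.Agent.H469R2.NK (e norm_e e_add e_zero)
open Pool.Agent.TH915.PW (sum_char e_int e_sub e_natmul)
open Pool.Agent.Z3h92 (Dio)

lemma e_sum' {κ : Type*} (t : Finset κ) (f : κ → ℝ) : e (∑ l ∈ t, f l) = ∏ l ∈ t, e (f l) := by
  classical
  induction t using Finset.induction_on with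
  | empty => rw [sum_empty, prod_empty, e_zero]
  | insert a t ha ih => rw [sum_insert ha, prod_insert ha, e_add, ih]

/-- Parseval -/
theorem parsevalG {ι : Type*} (M : ℕ) (hM : 0 < M) (A : Finset ι) (g : ι → ℤ)
    (hg : ∀ a ∈ A, ∀ a' ∈ A, a ≠ a' → ¬ (M : ℤ) ∣ g a - g a') (u : ι → ℂ) :
    ∑ j ∈ range M, ‖∑ a ∈ A, u a * e (g a * ((j : ℝ) / M))‖ ^ 2 = M * ∑ a ∈ A, ‖u a‖ ^ 2 := by
  classical
  have hM0 : (M : ℝ) ≠ 0 := by exact_mod_cast hM.ne'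
  have key : (((∑ j ∈ range M, ‖∑ a ∈ A, u a * e (g a * ((j : ℝ) / M))‖ ^ 2 : ℝ)) : ℂ) =
      ((M * ∑ a ∈ A, ‖u a‖ ^ 2 : ℝ) : ℂ) := by
    have h1 : ∀ j : ℕ, ((‖∑ a ∈ A, u a * e (g a * ((j : ℝ) / M))‖ ^ 2 : ℝ) : ℂ) =
        ∑ a ∈ A, ∑ a' ∈ A, u a * (starRingEnd ℂ) (u a') *
          e ((g a - g a' : ℤ) * ((j : ℝ) / M)) := by
      intro j
      rw [Complex.ofReal_pow, ← Complex.mul_conj', map_sum, sum_mul_sum]
      refine sum_congr rfl fun a _ => sum_congr rfl fun a' _ => ?_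
      rw [map_mul]
      have h2 : e ((g a - g a' : ℤ) * ((j : ℝ) / M)) =
          e (g a * ((j : ℝ) / M)) * (starRingEnd ℂ) (e (g a' * ((j : ℝ) / M))) := by
        rw [← e_sub]
        congr 1
        push_cast
        ring
      rw [h2]
      ring
    rw [Complex.ofReal_sum, sum_congr rfl fun j _ => h1 j, sum_comm]
    have h3 : ∀ a ∈ A, ∑ j ∈ range M, ∑ a' ∈ A, u a * (starRingEnd ℂ) (u a') *
        e ((g a - g a' : ℤ) * ((j : ℝ) / M)) = M * (‖u a‖ ^ 2 : ℝ) := by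
      intro a ha
      rw [sum_comm]
      rw [sum_eq_single a]
      · rw [← mul_sum]
        have : ∀ j : ℕ, e ((g a - g a : ℤ) * ((j : ℝ) / M)) = 1 := by
          intro j
          rw [sub_self, Int.cast_zero, zero_mul, e_zero]
        rw [sum_congr rfl fun j _ => this j, sum_const, card_range, nsmul_eq_mul, mul_one,
          Complex.mul_conj', Complex.ofReal_pow]
        ring
      · intro a' ha' hne
        rw [← mul_sum, sum_char M hM _ (hg a ha a' ha' hne.symm), mul_zero]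
      · intro h
        exact absurd ha h
    rw [sum_congr rfl h3, ← mul_sum]
    push_cast
    rfl
  exact_mod_cast key

/-- the mean square of the sum over the primes along an arithmetic progression of frequencies -/
theorem S_l2 (N M : ℕ) (hM : 0 < M) (a : ℤ) (ha : a ≠ 0) (haM : |a| * N < M) (γ : ℝ) :
    ∑ j ∈ range M, ‖S N (a * ((j : ℝ) / M) + γ)‖ ^ 2 ≤ M * N := by
  have h1 := parsevalG M hM (PP N) (fun p => a * (p : ℤ)) (by
    intro p hp p' hp' hne hdvd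
    rw [mem_PP] at hp hp'
    rw [← mul_sub] at hdvd
    have h2 : |a * ((p : ℤ) - p')| < M := by
      rw [abs_mul]
      refine lt_of_le_of_lt (mul_le_mul_of_nonneg_left ?_ (abs_nonneg a)) haM
      rw [abs_le]
      constructor <;> omega
    have h3 := Int.eq_zero_of_abs_lt_dvd hdvd h2
    rcases mul_eq_zero.1 h3 with h4 | h4
    · exact ha h4
    · omega) (fun p => e (p * γ))
  have h2 : ∑ j ∈ range M, ‖S N (a * ((j : ℝ) / M) + γ)‖ ^ 2 = ∑ j ∈ range M,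
      ‖∑ p ∈ PP N, e (p * γ) * e (((a * (p : ℤ) : ℤ) : ℝ) * ((j : ℝ) / M))‖ ^ 2 := by
    refine sum_congr rfl fun j _ => ?_
    unfold S
    congr 2
    refine sum_congr rfl fun p _ => ?_
    rw [← e_add]
    congr 1
    push_cast
    ring
  rw [h2, h1]
  have h3 : ∑ p ∈ PP N, ‖e (p * γ)‖ ^ 2 = ((PP N).card : ℝ) := by
    simp only [norm_e, one_pow, sum_const, nsmul_eq_mul, mul_one]
  rw [h3]
  have h4 : ((PP N).card : ℝ) ≤ N := by exact_mod_cast card_PP N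
  gcongr

/-- the solutions of `a₁ p₁ + ⋯ + a_k p_k = n` in primes `p_i ≤ N` -/
noncomputable def Sol {k : ℕ} (N : ℕ) (a : Fin k → ℤ) (n : ℤ) : Finset (Fin k → ℕ) :=
  (Fintype.piFinset fun _ => (range (N + 1)).filter Nat.Prime).filter
    fun p => ∑ i, a i * (p i : ℤ) = n

lemma mem_Sol {k N : ℕ} {a : Fin k → ℤ} {n : ℤ} {p : Fin k → ℕ} :
    p ∈ Sol N a n ↔ (∀ i, p i ∈ PP N) ∧ ∑ i, a i * (p i : ℤ) = n := by
  rw [Sol, mem_filter, Fintype.mem_piFinset]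
  rfl

/-- the sum over the solutions -/
noncomputable def RR {k : ℕ} (N : ℕ) (a : Fin k → ℤ) (γ : Fin k → ℝ) (n : ℤ) : ℂ :=
  ∑ p ∈ Sol N a n, e (∑ i, γ i * p i)

lemma prod_S {k : ℕ} (N : ℕ) (α : Fin k → ℝ) :
    ∏ i, S N (α i) = ∑ p ∈ Fintype.piFinset fun _ : Fin k => PP N, e (∑ i, α i * p i) := by
  unfold S
  rw [prod_univ_sum]
  refine sum_congr rfl fun p _ => ?_
  rw [e_sum']
  exact prod_congr rfl fun i _ => by rw [mul_comm]

/-- the circle method -/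
theorem fourier {k : ℕ} (N : ℕ) (a : Fin k → ℤ) (γ : Fin k → ℝ) (n : ℤ) (M : ℕ) (hM0 : 0 < M)
    (hM : ∀ p ∈ Fintype.piFinset fun _ : Fin k => PP N, |∑ i, a i * (p i : ℤ) - n| < M) :
    (M : ℂ) * RR N a γ n = ∑ j ∈ range M, e (-(n * ((j : ℝ) / M))) *
      ∏ i, S N (a i * ((j : ℝ) / M) + γ i) := by
  classical
  have h1 : ∀ j : ℕ, e (-(n * ((j : ℝ) / M))) * ∏ i, S N (a i * ((j : ℝ) / M) + γ i) =
      ∑ p ∈ Fintype.piFinset fun _ : Fin k => PP N, e (∑ i, γ i * p i) *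
        e ((∑ i, a i * (p i : ℤ) - n : ℤ) * ((j : ℝ) / M)) := by
    intro j
    rw [prod_S, mul_sum]
    refine sum_congr rfl fun p _ => ?_
    rw [← e_add, ← e_add]
    congr 1
    push_cast
    rw [sub_mul, sum_mul]
    have h2 : ∑ i, ((a i : ℝ) * ((j : ℝ) / M) + γ i) * (p i : ℝ) =
        ∑ i, γ i * (p i : ℝ) + ∑ i, (a i : ℝ) * p i * ((j : ℝ) / M) := by
      rw [← sum_add_distrib]
      exact sum_congr rfl fun i _ => by ring
    rw [h2]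
    ring
  rw [sum_congr rfl fun j _ => h1 j, sum_comm]
  unfold RR Sol
  rw [mul_sum, sum_filter]
  refine sum_congr rfl fun p hp => ?_
  rw [← mul_sum]
  split_ifs with h
  · have h2 : ∀ j : ℕ, e ((∑ i, a i * (p i : ℤ) - n : ℤ) * ((j : ℝ) / M)) = 1 := by
      intro j
      rw [h, sub_self, Int.cast_zero, zero_mul, e_zero]
    rw [sum_congr rfl fun j _ => h2 j, sum_const, card_range, nsmul_eq_mul, mul_one, mul_comm]
  · rw [sum_char M hM0, mul_zero]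
    intro hdvd
    have := Int.eq_zero_of_abs_lt_dvd hdvd (hM p hp)
    exact h (by omega)

lemma exists_M {k : ℕ} (N : ℕ) (a : Fin k → ℤ) (n : ℤ) : ∃ M : ℕ, 0 < M ∧ (∀ i, |a i| * N < M) ∧
    ∀ p ∈ Fintype.piFinset fun _ : Fin k => PP N, |∑ i, a i * (p i : ℤ) - n| < M := by
  refine ⟨(∑ i, |a i| * N + |n| + 1).toNat, ?_, ?_, ?_⟩
  · have h1 : 0 ≤ ∑ i, |a i| * (N : ℤ) := sum_nonneg fun i _ => by positivity
    have h2 := abs_nonneg n
    omega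
  · intro i
    have h1 : |a i| * (N : ℤ) ≤ ∑ i, |a i| * (N : ℤ) :=
      single_le_sum (f := fun i => |a i| * (N : ℤ)) (fun i _ => by positivity) (mem_univ i)
    have h2 := abs_nonneg n
    have h3 : 0 ≤ |a i| * (N : ℤ) := by positivity
    omega
  · intro p hp
    rw [Fintype.mem_piFinset] at hp
    have h1 : |∑ i, a i * (p i : ℤ)| ≤ ∑ i, |a i| * (N : ℤ) := by
      refine (abs_sum_le_sum_abs _ _).trans (sum_le_sum fun i _ => ?_)
      rw [abs_mul, Nat.abs_cast]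
      have := (mem_PP.1 (hp i)).1
      gcongr
    have h2 := abs_sub (∑ i, a i * (p i : ℤ)) n
    have h3 := abs_nonneg n
    have h4 := abs_nonneg (∑ i, a i * (p i : ℤ))
    omega

/-- **`k ≥ 3` primes.** -/
theorem RR_small (η : ℝ) (hη : 0 < η) (hη1 : η ≤ 1 / 2) : ∃ C : ℝ, 1 ≤ C ∧
    ∀ (N : ℕ) (x : ℝ), 1 ≤ N → Dio η N x → ∀ (k : ℕ) (a h : Fin k → ℤ) (i₁ i₂ i₃ : Fin k) (n : ℤ),
      i₁ ≠ i₂ → i₁ ≠ i₃ → i₂ ≠ i₃ → (∀ i, a i ≠ 0) →
      (∀ i, |(a i : ℝ)| ≤ (N : ℝ) ^ (η / 8)) →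
      a i₂ * h i₁ - a i₁ * h i₂ ≠ 0 → |((a i₂ * h i₁ - a i₁ * h i₂ : ℤ) : ℝ)| ≤ (N : ℝ) ^ (η / 8) →
      ‖RR N a (fun i => h i * x) n‖ ≤ C * (N : ℝ) ^ ((k : ℝ) - 1 - η / 16) := by
  obtain ⟨C, hC, h2⟩ := two_pts η hη hη1
  refine ⟨2 * C, by linarith, ?_⟩
  intro N x hN hD k a h i₁ i₂ i₃ n h12 h13 h23 ha0 haN hl hlN
  classical
  have hN1 : (1 : ℝ) ≤ N := by exact_mod_cast hN
  have hN0 : (0 : ℝ) < N := by linarith
  obtain ⟨M, hM0, hMa, hM⟩ := exists_M N a n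
  have hMR : (0 : ℝ) < M := by exact_mod_cast hM0
  obtain ⟨E, hE⟩ : ∃ E : ℝ, E = C * (N : ℝ) ^ (1 - η / 16) := ⟨_, rfl⟩
  have hE0 : 0 ≤ E := by rw [hE]; positivity
  obtain ⟨U, hU⟩ : ∃ U : Fin k → ℕ → ℂ, U = fun i (j : ℕ) => S N (a i * ((j : ℝ) / M) + h i * x) := ⟨_, rfl⟩
  have hk3 : 3 ≤ k := by
    have h3 : ({i₁, i₂, i₃} : Finset (Fin k)).card = 3 := by
      rw [card_insert_of_notMem, card_insert_of_notMem, card_singleton]
      · rw [mem_singleton]; exact h23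
      · rw [mem_insert, mem_singleton]; tauto
    have h4 := card_le_univ ({i₁, i₂, i₃} : Finset (Fin k))
    rw [h3, Fintype.card_fin] at h4
    exact h4
  -- pointwise
  have hpt : ∀ j : ℕ, ∏ i, ‖U i j‖ ≤ E * (N : ℝ) ^ (k - 3) *
      (‖U i₁ j‖ ^ 2 + ‖U i₂ j‖ ^ 2 + 2 * ‖U i₃ j‖ ^ 2) / 2 := by
    intro j
    have h3 : ∏ i, ‖U i j‖ = ‖U i₁ j‖ * (‖U i₂ j‖ * (‖U i₃ j‖ *
        ∏ i ∈ ((univ.erase i₁).erase i₂).erase i₃, ‖U i j‖)) := by
      rw [mul_prod_erase ((univ.erase i₁).erase i₂) (fun i => ‖U i j‖)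
          (mem_erase.2 ⟨h23.symm, mem_erase.2 ⟨h13.symm, mem_univ _⟩⟩),
        mul_prod_erase (univ.erase i₁) (fun i => ‖U i j‖) (mem_erase.2 ⟨h12.symm, mem_univ _⟩),
        mul_prod_erase univ (fun i => ‖U i j‖) (mem_univ _)]
    have h4 : ∏ i ∈ ((univ.erase i₁).erase i₂).erase i₃, ‖U i j‖ ≤ (N : ℝ) ^ (k - 3) := by
      have h5 : (((univ.erase i₁).erase i₂).erase i₃ : Finset (Fin k)).card = k - 3 := by
        rw [card_erase_of_mem (mem_erase.2 ⟨h23.symm, mem_erase.2 ⟨h13.symm, mem_univ _⟩⟩),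
          card_erase_of_mem (mem_erase.2 ⟨h12.symm, mem_univ _⟩), card_erase_of_mem (mem_univ _),
          card_univ, Fintype.card_fin]
        omega
      rw [← h5, ← prod_const]
      exact prod_le_prod (fun i _ => norm_nonneg _) fun i _ => by rw [hU]; exact norm_S_le _ _
    have h5 : ‖U i₁ j‖ ≤ E ∨ ‖U i₂ j‖ ≤ E := by
      rw [hE, hU]
      refine h2 N x hN hD (a i₂) (a i₁) (a i₂ * h i₁ - a i₁ * h i₂) _ _ hl (haN _) (haN _) hlN ?_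
      push_cast
      ring
    have n1 := norm_nonneg (U i₁ j)
    have n2 := norm_nonneg (U i₂ j)
    have n3 := norm_nonneg (U i₃ j)
    have h6 : ‖U i₁ j‖ * (‖U i₂ j‖ * ‖U i₃ j‖) ≤
        E * ((‖U i₁ j‖ ^ 2 + ‖U i₂ j‖ ^ 2 + 2 * ‖U i₃ j‖ ^ 2) / 2) := by
      rcases h5 with h5 | h5
      · calc ‖U i₁ j‖ * (‖U i₂ j‖ * ‖U i₃ j‖) ≤ E * (‖U i₂ j‖ * ‖U i₃ j‖) := by gcongr
          _ ≤ _ := by
            apply mul_le_mul_of_nonneg_left _ hE0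
            nlinarith [sq_nonneg (‖U i₂ j‖ - ‖U i₃ j‖), sq_nonneg ‖U i₁ j‖, sq_nonneg ‖U i₃ j‖]
      · calc ‖U i₁ j‖ * (‖U i₂ j‖ * ‖U i₃ j‖) = ‖U i₂ j‖ * (‖U i₁ j‖ * ‖U i₃ j‖) := by ring
          _ ≤ E * (‖U i₁ j‖ * ‖U i₃ j‖) := by gcongr
          _ ≤ _ := by
            apply mul_le_mul_of_nonneg_left _ hE0
            nlinarith [sq_nonneg (‖U i₁ j‖ - ‖U i₃ j‖), sq_nonneg ‖U i₂ j‖, sq_nonneg ‖U i₃ j‖]
    rw [h3]
    calc _ = (‖U i₁ j‖ * (‖U i₂ j‖ * ‖U i₃ j‖)) *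
          ∏ i ∈ ((univ.erase i₁).erase i₂).erase i₃, ‖U i j‖ := by ring
      _ ≤ (E * ((‖U i₁ j‖ ^ 2 + ‖U i₂ j‖ ^ 2 + 2 * ‖U i₃ j‖ ^ 2) / 2)) * (N : ℝ) ^ (k - 3) := by
          apply mul_le_mul h6 h4 (prod_nonneg fun i _ => norm_nonneg _) (by positivity)
      _ = _ := by ring
  -- the sum
  have hl2 : ∀ i, ∑ j ∈ range M, ‖U i j‖ ^ 2 ≤ M * N := by
    intro i
    rw [hU]
    exact S_l2 N M hM0 (a i) (ha0 i) (hMa i) _
  have h3 := fourier N a (fun i => h i * x) n M hM0 hM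
  have h4 : ‖(M : ℂ) * RR N a (fun i => h i * x) n‖ ≤ ∑ j ∈ range M, ∏ i, ‖U i j‖ := by
    rw [h3]
    refine (norm_sum_le _ _).trans (sum_le_sum fun j _ => ?_)
    rw [norm_mul, norm_e, one_mul, norm_prod, hU]
  have h5 : ∑ j ∈ range M, ∏ i, ‖U i j‖ ≤ M * (2 * E * (N : ℝ) ^ (k - 3) * N) := by
    refine (sum_le_sum fun j _ => hpt j).trans ?_
    rw [← sum_div, ← mul_sum, sum_add_distrib, sum_add_distrib, ← mul_sum]
    have a1 := hl2 i₁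
    have a2 := hl2 i₂
    have a3 := hl2 i₃
    have h6 : (∑ j ∈ range M, ‖U i₁ j‖ ^ 2 + ∑ j ∈ range M, ‖U i₂ j‖ ^ 2 +
        2 * ∑ j ∈ range M, ‖U i₃ j‖ ^ 2) ≤ 4 * (M * N) := by linarith
    calc E * (N : ℝ) ^ (k - 3) * (∑ j ∈ range M, ‖U i₁ j‖ ^ 2 + ∑ j ∈ range M, ‖U i₂ j‖ ^ 2 +
        2 * ∑ j ∈ range M, ‖U i₃ j‖ ^ 2) / 2 ≤ E * (N : ℝ) ^ (k - 3) * (4 * (M * N)) / 2 := by
          gcongr
      _ = _ := by ring
  rw [norm_mul, Complex.norm_natCast] at h4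
  have h6 := le_of_mul_le_mul_left (h4.trans h5) hMR
  refine h6.trans (le_of_eq ?_)
  rw [hE]
  have h7 : (N : ℝ) ^ (k - 3) * N = (N : ℝ) ^ ((k : ℝ) - 2) := by
    rw [← pow_succ, ← Real.rpow_natCast]
    congr 1
    have : ((k - 3 + 1 : ℕ) : ℝ) = (k : ℝ) - 2 := by
      rw [show k - 3 + 1 = k - 2 by omega, Nat.cast_sub (by omega)]
      norm_num
    exact this
  calc 2 * (C * (N : ℝ) ^ (1 - η / 16)) * (N : ℝ) ^ (k - 3) * N =
        2 * C * ((N : ℝ) ^ (1 - η / 16) * ((N : ℝ) ^ (k - 3) * N)) := by ring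
    _ = 2 * C * (N : ℝ) ^ ((k : ℝ) - 1 - η / 16) := by
        rw [h7, ← Real.rpow_add hN0]
        congr 2
        ring

/-- **Two primes**, in the mean square. -/
theorem RR2_small (η : ℝ) (hη : 0 < η) (hη1 : η ≤ 1 / 2) : ∃ C : ℝ, 1 ≤ C ∧
    ∀ (N : ℕ) (x : ℝ), 1 ≤ N → Dio η N x → ∀ (a h : Fin 2 → ℤ) (W : Finset ℤ),
      (∀ i, a i ≠ 0) → (∀ i, |(a i : ℝ)| ≤ (N : ℝ) ^ (η / 8)) →
      a 1 * h 0 - a 0 * h 1 ≠ 0 → |((a 1 * h 0 - a 0 * h 1 : ℤ) : ℝ)| ≤ (N : ℝ) ^ (η / 8) →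
      ∑ n ∈ W, ‖RR N a (fun i => h i * x) n‖ ^ 2 ≤ C * (N : ℝ) ^ (3 - η / 8) := by
  obtain ⟨C, hC, h2⟩ := two_pts η hη hη1
  refine ⟨2 * C ^ 2, by nlinarith, ?_⟩
  intro N x hN hD a h W ha0 haN hl hlN
  classical
  have hN1 : (1 : ℝ) ≤ N := by exact_mod_cast hN
  have hN0 : (0 : ℝ) < N := by linarith
  obtain ⟨M₀, hM₀, hMa, hM⟩ := exists_M N a 0
  obtain ⟨M, hMM⟩ : ∃ M : ℕ, M = 2 * M₀ := ⟨_, rfl⟩
  have hM0 : 0 < M := by omega
  have hMR : (0 : ℝ) < M := by exact_mod_cast hM0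
  have hMa' : ∀ i, |a i| * N < M := by
    intro i
    have := hMa i
    rw [hMM]
    push_cast
    omega
  obtain ⟨E, hE⟩ : ∃ E : ℝ, E = C * (N : ℝ) ^ (1 - η / 16) := ⟨_, rfl⟩
  have hE0 : 0 ≤ E := by rw [hE]; positivity
  obtain ⟨U, hU⟩ : ∃ U : Fin 2 → ℕ → ℂ, U = fun i (j : ℕ) => S N (a i * ((j : ℝ) / M) + h i * x) := ⟨_, rfl⟩
  -- the values
  obtain ⟨V, hV⟩ : ∃ V : Finset ℤ, V = (Fintype.piFinset fun _ : Fin 2 => PP N).image
    fun p => ∑ i, a i * (p i : ℤ) := ⟨_, rfl⟩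
  have hprod : ∀ j : ℕ, ∏ i, U i j = ∑ n ∈ V, RR N a (fun i => h i * x) n *
      e ((n : ℝ) * ((j : ℝ) / M)) := by
    intro j
    rw [hU]
    simp only
    rw [prod_S]
    have hmaps : ∀ p ∈ Fintype.piFinset fun _ : Fin 2 => PP N, ∑ i, a i * (p i : ℤ) ∈ V := by
      intro p hp
      rw [hV]
      exact mem_image_of_mem _ hp
    rw [← sum_fiberwise_of_maps_to hmaps]
    refine sum_congr rfl fun n _ => ?_
    unfold RR Sol
    rw [sum_mul]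
    refine sum_congr rfl fun p hp => ?_
    rw [mem_filter] at hp
    rw [← e_add, ← hp.2]
    congr 1
    push_cast
    rw [sum_mul, ← sum_add_distrib]
    exact sum_congr rfl fun i _ => by ring
  have hpar := parsevalG M hM0 V (fun n => n) (by
    intro n hn n' hn' hne hdvd
    rw [hV, mem_image] at hn hn'
    obtain ⟨p, hp, rfl⟩ := hn
    obtain ⟨p', hp', rfl⟩ := hn'
    have h3 := hM p hp
    have h4 := hM p' hp'
    rw [sub_zero] at h3 h4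
    have h5 : |∑ i, a i * (p i : ℤ) - ∑ i, a i * (p' i : ℤ)| < M := by
      refine lt_of_le_of_lt (abs_sub _ _) ?_
      rw [hMM]
      push_cast
      omega
    have h6 := Int.eq_zero_of_abs_lt_dvd hdvd h5
    exact hne (by omega)) (fun n => RR N a (fun i => h i * x) n)
  have h3 : ∑ j ∈ range M, ‖∏ i, U i j‖ ^ 2 = M * ∑ n ∈ V, ‖RR N a (fun i => h i * x) n‖ ^ 2 := by
    rw [← hpar]
    exact sum_congr rfl fun j _ => by rw [hprod]
  have hl2 : ∀ i, ∑ j ∈ range M, ‖U i j‖ ^ 2 ≤ M * N := by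
    intro i
    rw [hU]
    exact S_l2 N M hM0 (a i) (ha0 i) (hMa' i) _
  have hpt : ∀ j : ℕ, ‖∏ i, U i j‖ ^ 2 ≤ E ^ 2 * (‖U 0 j‖ ^ 2 + ‖U 1 j‖ ^ 2) := by
    intro j
    rw [Fin.prod_univ_two, norm_mul, mul_pow]
    have h5 : ‖U 0 j‖ ≤ E ∨ ‖U 1 j‖ ≤ E := by
      rw [hE, hU]
      refine h2 N x hN hD (a 1) (a 0) (a 1 * h 0 - a 0 * h 1) _ _ hl (haN _) (haN _) hlN ?_
      push_cast
      ring
    rcases h5 with h5 | h5
    · have h6 : ‖U 0 j‖ ^ 2 ≤ E ^ 2 := pow_le_pow_left₀ (norm_nonneg _) h5 2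
      nlinarith [sq_nonneg ‖U 0 j‖, sq_nonneg ‖U 1 j‖, sq_nonneg E,
        mul_nonneg (sq_nonneg E) (sq_nonneg ‖U 0 j‖)]
    · have h6 : ‖U 1 j‖ ^ 2 ≤ E ^ 2 := pow_le_pow_left₀ (norm_nonneg _) h5 2
      nlinarith [sq_nonneg ‖U 0 j‖, sq_nonneg ‖U 1 j‖, sq_nonneg E,
        mul_nonneg (sq_nonneg E) (sq_nonneg ‖U 1 j‖)]
  have h4 : ∑ j ∈ range M, ‖∏ i, U i j‖ ^ 2 ≤ M * (2 * E ^ 2 * N) := by
    refine (sum_le_sum fun j _ => hpt j).trans ?_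
    rw [← mul_sum, sum_add_distrib]
    have a1 := hl2 0
    have a2 := hl2 1
    calc E ^ 2 * (∑ j ∈ range M, ‖U 0 j‖ ^ 2 + ∑ j ∈ range M, ‖U 1 j‖ ^ 2) ≤
          E ^ 2 * (M * N + M * N) := by gcongr
      _ = _ := by ring
  rw [h3] at h4
  have h5 := le_of_mul_le_mul_left h4 hMR
  have h6 : ∑ n ∈ W, ‖RR N a (fun i => h i * x) n‖ ^ 2 ≤
      ∑ n ∈ V, ‖RR N a (fun i => h i * x) n‖ ^ 2 := by
    rw [← sum_filter_add_sum_filter_not W (fun n => n ∈ V)]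
    have h7 : ∑ n ∈ W.filter (fun n => ¬ n ∈ V), ‖RR N a (fun i => h i * x) n‖ ^ 2 = 0 := by
      apply sum_eq_zero
      intro n hn
      rw [mem_filter] at hn
      have h8 : Sol N a n = ∅ := by
        rw [eq_empty_iff_forall_notMem]
        intro p hp
        rw [mem_Sol] at hp
        apply hn.2
        rw [hV, mem_image]
        exact ⟨p, Fintype.mem_piFinset.2 hp.1, hp.2⟩
      rw [RR, h8, sum_empty, norm_zero, zero_pow (by norm_num)]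
    rw [h7, add_zero]
    apply sum_le_sum_of_subset_of_nonneg
    · intro n hn
      rw [mem_filter] at hn
      exact hn.2
    · intro n _ _
      positivity
  refine (h6.trans h5).trans (le_of_eq ?_)
  rw [hE, mul_pow, ← Real.rpow_natCast ((N : ℝ) ^ (1 - η / 16)), ← Real.rpow_mul hN0.le]
  calc 2 * (C ^ 2 * (N : ℝ) ^ ((1 - η / 16) * ((2 : ℕ) : ℝ))) * N =
        2 * C ^ 2 * ((N : ℝ) ^ ((1 - η / 16) * ((2 : ℕ) : ℝ)) * (N : ℝ) ^ (1 : ℝ)) := by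
          rw [Real.rpow_one]; ring
    _ = _ := by
        rw [← Real.rpow_add hN0]
        congr 2
        push_cast
        ring

end Pool.Agent.T2h20.GB
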