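import Mathlib
import Pool.Agent.T2h20.GB.Lin
import Pool.Agent.T2h20.GB.DiscD

/-!
Equidistribution of the solutions of linear equations in primes.
-/

set_option autoImplicit false

open Finset

namespace Pool.Agent.T2h20.GB

open Pool.Agent.H469R2.NK (e norm_e e_add e_zero)
open Pool.Agent.TH915.PW (sum_char e_int e_sub e_natmul)
open Pool.Agent.Z3h92 (Dio)

lemma card_Sol {k : ℕ} (N : ℕ) (a : Fin k → ℤ) (n : ℤ) (i₀ : Fin k) (h0 : a i₀ ≠ 0) :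
    ((Sol N a n).card : ℝ) ≤ (N : ℝ) ^ (k - 1) := by
  classical
  have h1 : (Sol N a n).card ≤ (Fintype.piFinset fun _ : {i : Fin k // i ≠ i₀} => PP N).card := by
    refine card_le_card_of_injOn (fun p i => p i.1) ?_ ?_
    · intro p hp
      rw [mem_coe, mem_Sol] at hp
      rw [mem_coe, Fintype.mem_piFinset]
      exact fun i => hp.1 i.1
    · intro p hp q hq hpq
      rw [mem_coe, mem_Sol] at hp hq
      have h2 : ∀ i, i ≠ i₀ → p i = q i := fun i hi => congrFun hpq ⟨i, hi⟩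
      have h3 := hp.2.trans hq.2.symm
      rw [← add_sum_erase _ _ (mem_univ i₀), ← add_sum_erase _ _ (mem_univ i₀)] at h3
      have h4 : ∑ i ∈ univ.erase i₀, a i * (p i : ℤ) = ∑ i ∈ univ.erase i₀, a i * (q i : ℤ) :=
        sum_congr rfl fun i hi => by rw [h2 i (ne_of_mem_erase hi)]
      rw [h4, add_left_inj] at h3
      have h5 := mul_left_cancel₀ h0 h3
      funext i
      by_cases hi : i = i₀
      · rw [hi]; exact_mod_cast h5
      · exact h2 i hi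
  rw [Fintype.card_piFinset, prod_const, card_univ] at h1
  have h2 : Fintype.card {i : Fin k // i ≠ i₀} = k - 1 := by
    rw [Fintype.card_subtype_compl, Fintype.card_fin, Fintype.card_subtype_eq]
  rw [h2] at h1
  have h3 : ((PP N).card : ℝ) ≤ N := by exact_mod_cast card_PP N
  calc ((Sol N a n).card : ℝ) ≤ ((PP N).card : ℝ) ^ (k - 1) := by exact_mod_cast h1
    _ ≤ _ := pow_le_pow_left₀ (Nat.cast_nonneg _) h3 _

/-- all the coordinates but one of the solutions are equidistributed -/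
def Eqd {k : ℕ} (δ : ℝ) (N : ℕ) (x : ℝ) (a : Fin k → ℤ) (n : ℤ) (err : ℝ) : Prop :=
  ∀ (i₀ : Fin k) (c : Fin k → ℤ) (β lo hi : Fin k → ℝ), (∀ i, c i ≠ 0) →
    (∀ i, |(c i : ℝ)| ≤ (N : ℝ) ^ δ) → (∀ i, 0 ≤ lo i) → (∀ i, lo i ≤ hi i) → (∀ i, hi i ≤ 1) →
    |(((Sol N a n).filter fun p => ∀ i, i ≠ i₀ → lo i ≤ Int.fract (c i * x * p i + β i) ∧
      Int.fract (c i * x * p i + β i) < hi i).card : ℝ) -
      (∏ i ∈ univ.erase i₀, (hi i - lo i)) * (Sol N a n).card| ≤ err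

theorem eqd_of_char {k : ℕ} (δ : ℝ) (N : ℕ) (x : ℝ) (a : Fin k → ℤ) (n : ℤ) (K : ℕ) (hK : 1 ≤ K)
    (E : ℝ) (hE0 : 0 ≤ E)
    (hE : ∀ (i₀ : Fin k) (h : Fin k → ℤ), h i₀ = 0 → h ≠ 0 →
      (∀ i, |(h i : ℝ)| ≤ (K : ℝ) ^ 3 * (N : ℝ) ^ δ) → ‖RR N a (fun i => h i * x) n‖ ≤ E) :
    Eqd δ N x a n (3 ^ (k - 1) * ((3 * ((k - 1 : ℕ) : ℝ) + 4) * ((Sol N a n).card / K) +
      (K : ℝ) ^ (3 * (k - 1)) * E)) := by
  classical
  intro i₀ c β lo hi hc hcN hlo hlohi hhi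
  have hcard : Fintype.card {i : Fin k // i ≠ i₀} = k - 1 := by
    rw [Fintype.card_subtype_compl, Fintype.card_fin, Fintype.card_subtype_eq]
  have h1 := discD (κ := {i : Fin k // i ≠ i₀}) (Sol N a n) (fun p i => c i.1 * x * p i.1 + β i.1)
    K hK E hE0 ?_ (fun i => lo i.1) (fun i => hi i.1) (fun i => hlo _) (fun i => hlohi _)
    (fun i => hhi _)
  · rw [hcard] at h1
    have h2 : ((Sol N a n).filter fun p : Fin k → ℕ => ∀ i : {i : Fin k // i ≠ i₀}, lo i.1 ≤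
        Int.fract (c i.1 * x * p i.1 + β i.1) ∧ Int.fract (c i.1 * x * p i.1 + β i.1) < hi i.1) =
        (Sol N a n).filter fun p => ∀ i, i ≠ i₀ → lo i ≤ Int.fract (c i * x * p i + β i) ∧
          Int.fract (c i * x * p i + β i) < hi i := by
      ext p
      rw [mem_filter, mem_filter, Subtype.forall]
    have h3 : ∏ i : {i : Fin k // i ≠ i₀}, (hi i.1 - lo i.1) = ∏ i ∈ univ.erase i₀, (hi i - lo i) := by
      rw [← Finset.prod_subtype (univ.erase i₀) (p := fun i => i ≠ i₀) (by simp)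
        (fun i => hi i - lo i)]
    rw [h3] at h1
    rw [mul_comm (∏ i ∈ univ.erase i₀, (hi i - lo i))]
    refine le_trans (le_of_eq ?_) h1
    rw [← h2]
  · intro h hh0 hhK
    obtain ⟨h', hh'⟩ : ∃ h' : Fin k → ℤ, h' = fun i => if hi : i ≠ i₀ then h ⟨i, hi⟩ * c i else 0 :=
      ⟨_, rfl⟩
    have h2 : ∀ p : Fin k → ℕ, ∑ l : {i : Fin k // i ≠ i₀}, (h l : ℝ) * (c l.1 * x * p l.1 + β l.1) =
        ∑ l, (h l : ℝ) * β l.1 + ∑ i, (h' i : ℝ) * x * p i := by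
      intro p
      have h3 : ∑ i, (h' i : ℝ) * x * p i =
          ∑ l : {i : Fin k // i ≠ i₀}, (h l : ℝ) * (c l.1 * x * p l.1) := by
        rw [← add_sum_erase _ _ (mem_univ i₀)]
        have h4 : (h' i₀ : ℝ) = 0 := by
          rw [hh']
          simp
        rw [h4, zero_mul, zero_mul, zero_add]
        rw [Finset.sum_subtype (univ.erase i₀) (p := fun i => i ≠ i₀) (by simp)]
        refine sum_congr rfl fun l _ => ?_
        have h5 : h' l.1 = h l * c l.1 := by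
          rw [hh']
          simp only
          rw [dif_pos l.2]
        rw [h5]
        push_cast
        ring
      rw [h3, ← sum_add_distrib]
      exact sum_congr rfl fun l _ => by ring
    have h3 : ∑ p ∈ Sol N a n, e (∑ l : {i : Fin k // i ≠ i₀}, (h l : ℝ) *
        (c l.1 * x * p l.1 + β l.1)) = e (∑ l, (h l : ℝ) * β l.1) * RR N a (fun i => h' i * x) n := by
      rw [RR, mul_sum]
      refine sum_congr rfl fun p _ => ?_
      rw [h2, e_add]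
    rw [h3, norm_mul, norm_e, one_mul]
    apply hE i₀ h'
    · rw [hh']
      simp
    · intro h4
      apply hh0
      funext l
      have h5 := congrFun h4 l.1
      rw [hh'] at h5
      simp only at h5
      rw [dif_pos l.2] at h5
      exact (mul_eq_zero.1 h5).resolve_right (hc _)
    · intro i
      rw [hh']
      simp only
      split_ifs with hi0
      · have h4 : |(h ⟨i, hi0⟩ : ℝ)| ≤ (K : ℝ) ^ 3 := by
          have h5 := (hhK ⟨i, hi0⟩).le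
          have h6 : ((|h ⟨i, hi0⟩| : ℤ) : ℝ) ≤ (((K ^ 3 : ℕ) : ℤ) : ℝ) := by exact_mod_cast h5
          rw [Int.cast_abs] at h6
          refine h6.trans (le_of_eq ?_)
          push_cast
          rfl
        push_cast
        rw [abs_mul]
        exact mul_le_mul h4 (hcN i) (abs_nonneg _) (by positivity)
      · rw [Int.cast_zero, abs_zero]
        positivity

lemma exists_K (N : ℕ) (hN : 1 ≤ N) (δ : ℝ) (hδ : 0 < δ) : ∃ K : ℕ, 1 ≤ K ∧
    (K : ℝ) ≤ (N : ℝ) ^ δ ∧ (N : ℝ) ^ δ ≤ 2 * K := by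
  have hN1 : (1 : ℝ) ≤ N := by exact_mod_cast hN
  have h1 : (1 : ℝ) ≤ (N : ℝ) ^ δ := Real.one_le_rpow hN1 hδ.le
  have hK1 : 1 ≤ ⌊(N : ℝ) ^ δ⌋₊ := Nat.le_floor (by simpa using h1)
  refine ⟨⌊(N : ℝ) ^ δ⌋₊, hK1, Nat.floor_le (by linarith), ?_⟩
  have h2 := Nat.lt_floor_add_one ((N : ℝ) ^ δ)
  have : (1 : ℝ) ≤ ⌊(N : ℝ) ^ δ⌋₊ := by exact_mod_cast hK1
  linarith

/-- **Linear equations in at least three primes.** -/
theorem lin3 (η : ℝ) (hη : 0 < η) (hη1 : η ≤ 1 / 2) (k : ℕ) (δ : ℝ) (hδ : δ = η / (128 * (k + 3))) :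
    ∃ B : ℝ, 0 ≤ B ∧ ∀ (N : ℕ) (x : ℝ), 1 ≤ N → Dio η N x → ∀ j : ℕ, 3 ≤ j → j ≤ k →
      ∀ (a : Fin j → ℤ) (n : ℤ), (∀ i, a i ≠ 0) → (∀ i, |(a i : ℝ)| ≤ (N : ℝ) ^ δ) →
        Eqd δ N x a n (B * (N : ℝ) ^ ((j : ℝ) - 1 - 2 * δ)) := by
  obtain ⟨C, hC, hR⟩ := RR_small η hη hη1
  refine ⟨3 ^ k * ((3 * (k : ℝ) + 4) * 2 + C), by positivity, ?_⟩
  intro N x hN hD j hj3 hjk a n ha0 haN
  have hN1 : (1 : ℝ) ≤ N := by exact_mod_cast hN
  have hN0 : (0 : ℝ) < N := by linarith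
  have hkR : (0 : ℝ) < 128 * ((k : ℝ) + 3) := by positivity
  have hδ0 : 0 < δ := by rw [hδ]; positivity
  have hδk : δ * (128 * ((k : ℝ) + 3)) = η := by rw [hδ]; field_simp
  have hjR : (3 : ℝ) ≤ j := by exact_mod_cast hj3
  have hjkR : (j : ℝ) ≤ k := by exact_mod_cast hjk
  have hδ384 : 384 * δ ≤ η := by rw [← hδk]; nlinarith
  obtain ⟨K, hK1, hKle, hKge⟩ := exists_K N hN (2 * δ) (by linarith)
  have hK0 : (0 : ℝ) < K := by exact_mod_cast hK1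
  have hK3 : (K : ℝ) ^ 3 ≤ (N : ℝ) ^ (6 * δ) := by
    calc (K : ℝ) ^ 3 ≤ ((N : ℝ) ^ (2 * δ)) ^ 3 := pow_le_pow_left₀ hK0.le hKle 3
      _ = (N : ℝ) ^ (6 * δ) := by
        rw [← Real.rpow_natCast, ← Real.rpow_mul hN0.le]
        congr 1
        push_cast; ring
  obtain ⟨E, hE⟩ : ∃ E : ℝ, E = C * (N : ℝ) ^ ((j : ℝ) - 1 - η / 16) := ⟨_, rfl⟩
  have hE0 : 0 ≤ E := by rw [hE]; positivity
  have h1 := eqd_of_char δ N x a n K hK1 E hE0 (by
    intro i₀ h hi0 hh0 hhN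
    obtain ⟨i₁, hi1⟩ : ∃ i₁, h i₁ ≠ 0 := by
      by_contra hcon
      push Not at hcon
      exact hh0 (funext hcon)
    have h10 : i₁ ≠ i₀ := by
      rintro rfl
      exact hi1 hi0
    obtain ⟨i₃, hi3⟩ : ∃ i₃ : Fin j, i₃ ∉ ({i₁, i₀} : Finset (Fin j)) := by
      by_contra hcon
      push Not at hcon
      have h2 := card_le_card (fun i _ => hcon i : (univ : Finset (Fin j)) ⊆ {i₁, i₀})
      rw [card_univ, Fintype.card_fin] at h2
      have h3 := card_le_two (a := i₁) (b := i₀)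
      omega
    rw [mem_insert, mem_singleton, not_or] at hi3
    rw [hE]
    have hab : |((a i₀ * h i₁ - a i₁ * h i₀ : ℤ) : ℝ)| ≤ (N : ℝ) ^ (η / 8) := by
      rw [hi0, mul_zero, sub_zero]
      push_cast
      rw [abs_mul]
      calc |(a i₀ : ℝ)| * |(h i₁ : ℝ)| ≤ (N : ℝ) ^ δ * ((K : ℝ) ^ 3 * (N : ℝ) ^ δ) := by
            apply mul_le_mul (haN _) (hhN _) (abs_nonneg _) (by positivity)
        _ ≤ (N : ℝ) ^ δ * ((N : ℝ) ^ (6 * δ) * (N : ℝ) ^ δ) := by gcongr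
        _ = (N : ℝ) ^ (δ + (6 * δ + δ)) := by rw [← Real.rpow_add hN0, ← Real.rpow_add hN0]
        _ ≤ _ := by
            apply Real.rpow_le_rpow_of_exponent_le hN1
            linarith
    refine hR N x hN hD j a h i₁ i₀ i₃ n h10 (Ne.symm hi3.1) (Ne.symm hi3.2) ha0 (fun i => ?_) ?_ hab
    · refine (haN i).trans ?_
      apply Real.rpow_le_rpow_of_exponent_le hN1
      linarith
    · rw [hi0, mul_zero, sub_zero]
      exact mul_ne_zero (ha0 _) hi1)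
  intro i₀ c β lo hi hc hcN hlo hlohi hhi
  refine (h1 i₀ c β lo hi hc hcN hlo hlohi hhi).trans ?_
  have hP0 : (0 : ℝ) < (N : ℝ) ^ ((j : ℝ) - 1 - 2 * δ) := Real.rpow_pos_of_pos hN0 _
  have h2 : ((Sol N a n).card : ℝ) / K ≤ 2 * (N : ℝ) ^ ((j : ℝ) - 1 - 2 * δ) := by
    rw [div_le_iff₀ hK0]
    have h3 := card_Sol N a n i₀ (ha0 i₀)
    have h4 : (N : ℝ) ^ (j - 1) = (N : ℝ) ^ ((j : ℝ) - 1 - 2 * δ) * (N : ℝ) ^ (2 * δ) := by
      rw [← Real.rpow_add hN0, ← Real.rpow_natCast, Nat.cast_sub (by omega)]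
      congr 1
      push_cast; ring
    calc ((Sol N a n).card : ℝ) ≤ (N : ℝ) ^ (j - 1) := h3
      _ = (N : ℝ) ^ ((j : ℝ) - 1 - 2 * δ) * (N : ℝ) ^ (2 * δ) := h4
      _ ≤ (N : ℝ) ^ ((j : ℝ) - 1 - 2 * δ) * (2 * K) := by gcongr
      _ = _ := by ring
  have h3 : (K : ℝ) ^ (3 * (j - 1)) * E ≤ C * (N : ℝ) ^ ((j : ℝ) - 1 - 2 * δ) := by
    have h4 : (K : ℝ) ^ (3 * (j - 1)) ≤ (N : ℝ) ^ (6 * δ * ((j : ℝ) - 1)) := by
      calc (K : ℝ) ^ (3 * (j - 1)) = ((K : ℝ) ^ 3) ^ (j - 1) := pow_mul _ _ _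
        _ ≤ ((N : ℝ) ^ (6 * δ)) ^ (j - 1) := pow_le_pow_left₀ (by positivity) hK3 _
        _ = _ := by
          rw [← Real.rpow_natCast, ← Real.rpow_mul hN0.le, Nat.cast_sub (by omega)]
          push_cast
          rfl
    calc (K : ℝ) ^ (3 * (j - 1)) * E ≤ (N : ℝ) ^ (6 * δ * ((j : ℝ) - 1)) * E := by gcongr
      _ = C * ((N : ℝ) ^ (6 * δ * ((j : ℝ) - 1)) * (N : ℝ) ^ ((j : ℝ) - 1 - η / 16)) := by
          rw [hE]; ring
      _ = C * (N : ℝ) ^ (6 * δ * ((j : ℝ) - 1) + ((j : ℝ) - 1 - η / 16)) := by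
          rw [← Real.rpow_add hN0]
      _ ≤ C * (N : ℝ) ^ ((j : ℝ) - 1 - 2 * δ) := by
          apply mul_le_mul_of_nonneg_left _ (by linarith)
          apply Real.rpow_le_rpow_of_exponent_le hN1
          have h5 : 6 * δ * ((j : ℝ) - 1) ≤ 6 * δ * (k + 3) := by
            apply mul_le_mul_of_nonneg_left _ (by positivity)
            linarith
          have h6 : η / 16 = 8 * δ * (k + 3) := by rw [← hδk]; ring
          have h7 : 2 * δ ≤ 2 * δ * (k + 3) := by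
            have : (1 : ℝ) ≤ k + 3 := by linarith
            nlinarith
          linarith
  have h4 : (3 : ℝ) ^ (j - 1) ≤ 3 ^ k := pow_le_pow_right₀ (by norm_num) (by omega)
  have h5 : ((j - 1 : ℕ) : ℝ) ≤ k := by exact_mod_cast (by omega : j - 1 ≤ k)
  calc 3 ^ (j - 1) * ((3 * ((j - 1 : ℕ) : ℝ) + 4) * ((Sol N a n).card / K) +
        (K : ℝ) ^ (3 * (j - 1)) * E) ≤
      3 ^ k * ((3 * (k : ℝ) + 4) * (2 * (N : ℝ) ^ ((j : ℝ) - 1 - 2 * δ)) +
        C * (N : ℝ) ^ ((j : ℝ) - 1 - 2 * δ)) := by gcongr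
    _ = _ := by ring

end Pool.Agent.T2h20.GB
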