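import Mathlib
import Pool.Agent.T2h20.GB.Eq

/-!
Equidistribution of the solutions of linear equations in two primes, outside an exceptional set.
-/

set_option autoImplicit false

open Finset

namespace Pool.Agent.T2h20.GB

open Pool.Agent.H469R2.NK (e norm_e e_add e_zero)
open Pool.Agent.Z3h92 (Dio)

lemma card_Icc_int (A : ℝ) (hA : 1 ≤ A) : ((Icc (-⌊A⌋) ⌊A⌋).card : ℝ) ≤ 3 * A := by
  rw [Int.card_Icc]
  have h1 : (1 : ℤ) ≤ ⌊A⌋ := Int.le_floor.2 (by simpa using hA)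
  have h2 : (⌊A⌋ : ℝ) ≤ A := Int.floor_le A
  have h3 : (((⌊A⌋ + 1 - -⌊A⌋).toNat : ℕ) : ℤ) = ⌊A⌋ + 1 - -⌊A⌋ := Int.toNat_of_nonneg (by omega)
  have h4 : (((⌊A⌋ + 1 - -⌊A⌋).toNat : ℕ) : ℝ) = ((⌊A⌋ + 1 - -⌊A⌋ : ℤ) : ℝ) := by
    exact_mod_cast congrArg (fun z : ℤ => (z : ℝ)) h3
  rw [h4]
  push_cast
  linarith

lemma mem_Icc_floor {A : ℝ} {z : ℤ} (h : |(z : ℝ)| ≤ A) : z ∈ Icc (-⌊A⌋) ⌊A⌋ := by
  rw [mem_Icc]
  rw [abs_le] at h
  constructor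
  · have : -z ≤ ⌊A⌋ := Int.le_floor.2 (by push_cast; linarith)
    omega
  · exact Int.le_floor.2 h.2

lemma abs_le_of_mem {A : ℝ} {z : ℤ} (h : z ∈ Icc (-⌊A⌋) ⌊A⌋) : |(z : ℝ)| ≤ A := by
  rw [mem_Icc] at h
  have h2 : (⌊A⌋ : ℝ) ≤ A := Int.floor_le A
  have h3 : ((-⌊A⌋ : ℤ) : ℝ) ≤ z := by exact_mod_cast h.1
  have h4 : (z : ℝ) ≤ (⌊A⌋ : ℝ) := by exact_mod_cast h.2
  push_cast at h3
  rw [abs_le]
  constructor <;> linarith

/-- **Linear equations in two primes.** -/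
theorem lin2 (η : ℝ) (hη : 0 < η) (hη1 : η ≤ 1 / 2) (δ : ℝ) (hδ0 : 0 < δ) (hδ : 384 * δ ≤ η) :
    ∃ B : ℝ, 0 ≤ B ∧ ∀ (N : ℕ) (x : ℝ), 1 ≤ N → Dio η N x → ∃ X : Finset ℤ,
      (X.card : ℝ) ≤ B * (N : ℝ) ^ (1 - 2 * δ) ∧
      ∀ n : ℤ, n ∉ X → ∀ (a : Fin 2 → ℤ), (∀ i, a i ≠ 0) → (∀ i, |(a i : ℝ)| ≤ (N : ℝ) ^ δ) →
        Eqd δ N x a n (B * (N : ℝ) ^ (1 - 2 * δ)) := by
  classical
  obtain ⟨C, hC, hR⟩ := RR2_small η hη hη1
  refine ⟨81 * C + 3 * (7 * 2 + 1), by positivity, ?_⟩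
  intro N x hN hD
  have hN1 : (1 : ℝ) ≤ N := by exact_mod_cast hN
  have hN0 : (0 : ℝ) < N := by linarith
  obtain ⟨K, hK1, hKle, hKge⟩ := exists_K N hN (2 * δ) (by linarith)
  have hK0 : (0 : ℝ) < K := by exact_mod_cast hK1
  have hK3 : (K : ℝ) ^ 3 ≤ (N : ℝ) ^ (6 * δ) := by
    calc (K : ℝ) ^ 3 ≤ ((N : ℝ) ^ (2 * δ)) ^ 3 := pow_le_pow_left₀ hK0.le hKle 3
      _ = (N : ℝ) ^ (6 * δ) := by
        rw [← Real.rpow_natCast, ← Real.rpow_mul hN0.le]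
        congr 1
        push_cast; ring
  obtain ⟨E, hE⟩ : ∃ E : ℝ, E = (N : ℝ) ^ (1 - 8 * δ) := ⟨_, rfl⟩
  have hE0 : 0 < E := by rw [hE]; positivity
  have hA1 : (1 : ℝ) ≤ (N : ℝ) ^ δ := Real.one_le_rpow hN1 hδ0.le
  have hB1 : (1 : ℝ) ≤ (N : ℝ) ^ (7 * δ) := Real.one_le_rpow hN1 (by positivity)
  -- the parameters
  obtain ⟨Q, hQ⟩ : ∃ Q : Finset ((Fin 2 → ℤ) × (Fin 2 → ℤ)), Q =
      ((Fintype.piFinset fun _ : Fin 2 => Icc (-⌊(N : ℝ) ^ δ⌋) ⌊(N : ℝ) ^ δ⌋) ×ˢ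
        (Fintype.piFinset fun _ : Fin 2 => Icc (-⌊(N : ℝ) ^ (7 * δ)⌋) ⌊(N : ℝ) ^ (7 * δ)⌋)).filter
        fun z => (∀ i, z.1 i ≠ 0) ∧ (z.2 0 = 0 ∨ z.2 1 = 0) ∧ z.2 ≠ 0 := ⟨_, rfl⟩
  have hQcard : (Q.card : ℝ) ≤ 81 * (N : ℝ) ^ (16 * δ) := by
    have h1 := card_filter_le ((Fintype.piFinset fun _ : Fin 2 => Icc (-⌊(N : ℝ) ^ δ⌋) ⌊(N : ℝ) ^ δ⌋) ×ˢ
        (Fintype.piFinset fun _ : Fin 2 => Icc (-⌊(N : ℝ) ^ (7 * δ)⌋) ⌊(N : ℝ) ^ (7 * δ)⌋))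
        (fun z => (∀ i, z.1 i ≠ 0) ∧ (z.2 0 = 0 ∨ z.2 1 = 0) ∧ z.2 ≠ 0)
    rw [← hQ] at h1
    rw [card_product, Fintype.card_piFinset, Fintype.card_piFinset, prod_const, prod_const,
      card_univ, Fintype.card_fin] at h1
    have h2 := card_Icc_int _ hA1
    have h3 := card_Icc_int _ hB1
    calc (Q.card : ℝ) ≤ ((Icc (-⌊(N : ℝ) ^ δ⌋) ⌊(N : ℝ) ^ δ⌋).card : ℝ) ^ 2 *
          ((Icc (-⌊(N : ℝ) ^ (7 * δ)⌋) ⌊(N : ℝ) ^ (7 * δ)⌋).card : ℝ) ^ 2 := by exact_mod_cast h1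
      _ ≤ (3 * (N : ℝ) ^ δ) ^ 2 * (3 * (N : ℝ) ^ (7 * δ)) ^ 2 := by gcongr
      _ = 81 * (((N : ℝ) ^ δ) ^ 2 * ((N : ℝ) ^ (7 * δ)) ^ 2) := by ring
      _ = 81 * (N : ℝ) ^ (16 * δ) := by
          rw [← Real.rpow_natCast, ← Real.rpow_natCast, ← Real.rpow_mul hN0.le,
            ← Real.rpow_mul hN0.le, ← Real.rpow_add hN0]
          congr 2
          push_cast; ring
  -- the exceptional set
  obtain ⟨V, hV⟩ : ∃ V : (Fin 2 → ℤ) → Finset ℤ, V = fun a =>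
    (Fintype.piFinset fun _ : Fin 2 => PP N).image fun p => ∑ i, a i * (p i : ℤ) := ⟨_, rfl⟩
  obtain ⟨X, hX⟩ : ∃ X : Finset ℤ, X = Q.biUnion fun z =>
    (V z.1).filter fun n => E < ‖RR N z.1 (fun i => z.2 i * x) n‖ := ⟨_, rfl⟩
  have hone : ∀ z ∈ Q, (((V z.1).filter fun n => E < ‖RR N z.1 (fun i => z.2 i * x) n‖).card : ℝ) ≤
      C * (N : ℝ) ^ (1 - 18 * δ) := by
    intro z hz
    rw [hQ, mem_filter, mem_product, Fintype.mem_piFinset, Fintype.mem_piFinset] at hz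
    obtain ⟨⟨hz1, hz2⟩, hz3, hz4, hz5⟩ := hz
    obtain ⟨W, hW⟩ : ∃ W : Finset ℤ, W = (V z.1).filter
      fun n => E < ‖RR N z.1 (fun i => z.2 i * x) n‖ := ⟨_, rfl⟩
    rw [← hW]
    have hne : z.1 1 * z.2 0 - z.1 0 * z.2 1 ≠ 0 := by
      rcases hz4 with h0 | h0
      · rw [h0, mul_zero, zero_sub, neg_ne_zero]
        refine mul_ne_zero (hz3 0) fun h1 => hz5 ?_
        funext i
        fin_cases i
        · exact h0
        · exact h1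
      · rw [h0, mul_zero, sub_zero]
        refine mul_ne_zero (hz3 1) fun h1 => hz5 ?_
        funext i
        fin_cases i
        · exact h1
        · exact h0
    have hle : |((z.1 1 * z.2 0 - z.1 0 * z.2 1 : ℤ) : ℝ)| ≤ (N : ℝ) ^ (η / 8) := by
      have hgen : ∀ i j, |((z.1 i * z.2 j : ℤ) : ℝ)| ≤ (N : ℝ) ^ (η / 8) := by
        intro i j
        push_cast
        rw [abs_mul]
        calc |(z.1 i : ℝ)| * |(z.2 j : ℝ)| ≤ (N : ℝ) ^ δ * (N : ℝ) ^ (7 * δ) :=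
              mul_le_mul (abs_le_of_mem (hz1 i)) (abs_le_of_mem (hz2 j)) (abs_nonneg _) (by positivity)
          _ = (N : ℝ) ^ (δ + 7 * δ) := by rw [← Real.rpow_add hN0]
          _ ≤ _ := Real.rpow_le_rpow_of_exponent_le hN1 (by linarith)
      rcases hz4 with h0 | h0
      · rw [h0, mul_zero, zero_sub, Int.cast_neg, abs_neg]
        exact hgen 0 1
      · rw [h0, mul_zero, sub_zero]
        exact hgen 1 0
    have h1 := hR N x hN hD z.1 z.2 W hz3 (fun i => (abs_le_of_mem (hz1 i)).trans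
      (Real.rpow_le_rpow_of_exponent_le hN1 (by linarith))) hne hle
    have h2 : (W.card : ℝ) * E ^ 2 ≤ ∑ n ∈ W, ‖RR N z.1 (fun i => z.2 i * x) n‖ ^ 2 := by
      rw [← nsmul_eq_mul, ← sum_const]
      refine sum_le_sum fun n hn => ?_
      rw [hW, mem_filter] at hn
      exact pow_le_pow_left₀ hE0.le hn.2.le 2
    have h3 : (W.card : ℝ) * E ^ 2 ≤ C * (N : ℝ) ^ (1 - 18 * δ) * E ^ 2 := by
      refine (h2.trans h1).trans ?_
      have h4 : E ^ 2 = (N : ℝ) ^ (2 - 16 * δ) := by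
        rw [hE, ← Real.rpow_natCast, ← Real.rpow_mul hN0.le]
        congr 1
        push_cast; ring
      rw [h4, mul_assoc, ← Real.rpow_add hN0]
      apply mul_le_mul_of_nonneg_left _ (by linarith)
      apply Real.rpow_le_rpow_of_exponent_le hN1
      linarith
    exact le_of_mul_le_mul_right h3 (by positivity)
  have hpow : (N : ℝ) ^ (16 * δ) * (N : ℝ) ^ (1 - 18 * δ) = (N : ℝ) ^ (1 - 2 * δ) := by
    rw [← Real.rpow_add hN0]
    congr 1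
    ring
  have hP0 : (0 : ℝ) < (N : ℝ) ^ (1 - 2 * δ) := Real.rpow_pos_of_pos hN0 _
  refine ⟨X, ?_, ?_⟩
  · have h1 : (X.card : ℝ) ≤ ∑ z ∈ Q, C * (N : ℝ) ^ (1 - 18 * δ) := by
      rw [hX]
      refine le_trans (Nat.cast_le.2 card_biUnion_le) ?_
      rw [Nat.cast_sum]
      exact sum_le_sum hone
    rw [sum_const, nsmul_eq_mul] at h1
    calc (X.card : ℝ) ≤ Q.card * (C * (N : ℝ) ^ (1 - 18 * δ)) := h1
      _ ≤ (81 * (N : ℝ) ^ (16 * δ)) * (C * (N : ℝ) ^ (1 - 18 * δ)) := by gcongr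
      _ = 81 * C * ((N : ℝ) ^ (16 * δ) * (N : ℝ) ^ (1 - 18 * δ)) := by ring
      _ = 81 * C * (N : ℝ) ^ (1 - 2 * δ) := by rw [hpow]
      _ ≤ _ := by nlinarith
  · intro n hn a ha0 haN
    have h1 := eqd_of_char δ N x a n K hK1 E hE0.le (by
      intro i₀ h hi0 hh0 hhN
      by_cases hnV : n ∈ V a
      · by_contra hcon
        push Not at hcon
        apply hn
        rw [hX, mem_biUnion]
        refine ⟨(a, h), ?_, ?_⟩
        · rw [hQ, mem_filter, mem_product, Fintype.mem_piFinset, Fintype.mem_piFinset]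
          refine ⟨⟨fun i => mem_Icc_floor (haN i), fun i => mem_Icc_floor ?_⟩, ha0, ?_, hh0⟩
          · refine (hhN i).trans ?_
            calc (K : ℝ) ^ 3 * (N : ℝ) ^ δ ≤ (N : ℝ) ^ (6 * δ) * (N : ℝ) ^ δ := by gcongr
              _ = (N : ℝ) ^ (7 * δ) := by
                rw [← Real.rpow_add hN0]
                congr 1
                ring
          · fin_cases i₀
            · exact Or.inl hi0
            · exact Or.inr hi0
        · rw [mem_filter]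
          exact ⟨hnV, hcon⟩
      · have h8 : Sol N a n = ∅ := by
          rw [eq_empty_iff_forall_notMem]
          intro p hp
          rw [mem_Sol] at hp
          apply hnV
          rw [hV]
          exact mem_image.2 ⟨p, Fintype.mem_piFinset.2 hp.1, hp.2⟩
        rw [RR, h8, sum_empty, norm_zero]
        exact hE0.le)
    intro i₀ c β lo hi hc hcN hlo hlohi hhi
    refine (h1 i₀ c β lo hi hc hcN hlo hlohi hhi).trans ?_
    have h2 : ((Sol N a n).card : ℝ) / K ≤ 2 * (N : ℝ) ^ (1 - 2 * δ) := by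
      rw [div_le_iff₀ hK0]
      have h3 := card_Sol N a n i₀ (ha0 i₀)
      have h4 : (N : ℝ) = (N : ℝ) ^ (1 - 2 * δ) * (N : ℝ) ^ (2 * δ) := by
        rw [← Real.rpow_add hN0, sub_add_cancel, Real.rpow_one]
      calc ((Sol N a n).card : ℝ) ≤ (N : ℝ) := by simpa using h3
        _ = (N : ℝ) ^ (1 - 2 * δ) * (N : ℝ) ^ (2 * δ) := h4
        _ ≤ (N : ℝ) ^ (1 - 2 * δ) * (2 * K) := by gcongr
        _ = _ := by ring
    have h3 : (K : ℝ) ^ (3 * (2 - 1)) * E ≤ (N : ℝ) ^ (1 - 2 * δ) := by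
      calc (K : ℝ) ^ (3 * (2 - 1)) * E ≤ (N : ℝ) ^ (6 * δ) * E := by
            apply mul_le_mul_of_nonneg_right _ hE0.le
            simpa using hK3
        _ = _ := by
            rw [hE, ← Real.rpow_add hN0]
            congr 1
            ring
    calc (3 : ℝ) ^ (2 - 1) * ((3 * ((2 - 1 : ℕ) : ℝ) + 4) * ((Sol N a n).card / K) +
          (K : ℝ) ^ (3 * (2 - 1)) * E) ≤
        (3 : ℝ) ^ (2 - 1) * ((3 * ((2 - 1 : ℕ) : ℝ) + 4) * (2 * (N : ℝ) ^ (1 - 2 * δ)) +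
          (N : ℝ) ^ (1 - 2 * δ)) := by gcongr
      _ ≤ _ := by
        norm_num
        nlinarith

end Pool.Agent.T2h20.GB
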