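import Mathlib
import Pool.Agent.T2h20.GB.Eq2
import Pool.Agent.T6.H18.HH.Vino

/-!
Lower bounds for the number of the representations by two and by three primes.
-/

set_option autoImplicit false

namespace Pool.Agent.T2h20.GB

open Finset hiding val
open Pool.Agent.W93.PG (WinP cnt)
open Pool.Agent.T6.H18.HH (exc mem_exc card_exc cnt_lower)

lemma ev_log (U : ℕ) (ε C : ℝ) (hε : 0 < ε) : ∃ N₀ : ℕ, ∀ N : ℕ, N₀ ≤ N →
    C * Real.log N ^ U ≤ (N : ℝ) ^ ε := by
  have h1 : (fun x : ℝ => Real.log x ^ (U : ℝ)) =o[Filter.atTop] fun x => x ^ ε :=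
    isLittleO_log_rpow_rpow_atTop _ hε
  have h2 : (fun x : ℝ => C * Real.log x ^ (U : ℝ)) =o[Filter.atTop] fun x => x ^ ε :=
    h1.const_mul_left C
  have h3 := (h2.bound (show (0 : ℝ) < 1 by norm_num))
  have h4 := tendsto_natCast_atTop_atTop (R := ℝ) |>.eventually h3
  obtain ⟨N₀, hN₀⟩ := Filter.eventually_atTop.1 h4
  refine ⟨N₀, fun N hN => ?_⟩
  have h5 := hN₀ N hN
  rw [one_mul, Real.norm_eq_abs, Real.norm_eq_abs, abs_of_nonneg (by positivity :
    (0 : ℝ) ≤ (N : ℝ) ^ ε), Real.rpow_natCast] at h5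
  exact (le_abs_self _).trans h5

lemma cnt_le_Sol {N m : ℕ} (hm : m ≤ N) :
    cnt m 0 m ≤ (Sol (k := 2) N (fun _ => 1) (m : ℤ)).card := by
  rw [cnt]
  refine card_le_card_of_injOn (fun p => ![p, m - p]) ?_ ?_
  · intro p hp
    rw [mem_coe, mem_filter, mem_Ioc] at hp
    rw [mem_coe, mem_Sol]
    refine ⟨fun i => ?_, ?_⟩
    · fin_cases i
      · exact mem_PP.2 ⟨by simp only [Fin.zero_eta, Matrix.cons_val_zero]; omega, hp.2.1⟩
      · exact mem_PP.2 ⟨by simp only [Fin.mk_one, Matrix.cons_val_one, Matrix.cons_val_zero]; omega,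
          hp.2.2⟩
    · rw [Fin.sum_univ_two]
      simp only [Matrix.cons_val_zero, Matrix.cons_val_one, one_mul]
      omega
  · intro p _ q _ h
    exact congrFun h 0

lemma sol2_lower {N m : ℕ} (hm0 : 3 ≤ m) (hm : m ≤ N) (h : WinP (1 / 2) 1 m) :
    (m : ℝ) / (2 * Real.log m ^ 2) ≤ ((Sol (k := 2) N (fun _ => 1) (m : ℤ)).card : ℝ) := by
  have h3 : (3 : ℝ) ≤ m := by exact_mod_cast hm0
  have hlog : 1 ≤ Real.log m := by
    rw [Real.le_log_iff_exp_le (by linarith)]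
    have := Real.exp_one_lt_d9
    linarith
  have h1 := cnt_lower h (by omega : 0 < m) le_rfl (by
    rw [Nat.cast_zero, sub_zero]
    exact div_le_self (by linarith) hlog)
  rw [Nat.cast_zero, sub_zero] at h1
  refine h1.trans ?_
  exact_mod_cast cnt_le_Sol hm

/-- the number of the representations of an odd number by three primes -/
theorem sol3_lower (ε : ℝ) (hε : 0 < ε) : ∃ n₀ : ℕ, ∀ n : ℕ, n₀ ≤ n → Odd n → ∀ N : ℕ, n ≤ N →
    (n : ℝ) ^ (2 - ε) ≤ ((Sol (k := 3) N (fun _ => 1) (n : ℤ)).card : ℝ) := by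
  classical
  obtain ⟨k₀, hk₀⟩ := card_exc 3
  obtain ⟨n₁, hn₁⟩ := ev_log 4 ε (64 * 3 ^ 4) hε
  obtain ⟨n₂, hn₂⟩ := ev_log 2 1 (32 * 3 ^ 2) one_pos
  refine ⟨2 ^ (k₀ + 64) + n₁ + n₂, fun n hn hodd N hnN => ?_⟩
  have hpow0 : 0 < 2 ^ (k₀ + 64) := by positivity
  obtain ⟨k, hk⟩ : ∃ k, k = Nat.log 2 n + 1 := ⟨_, rfl⟩
  have hn0 : n ≠ 0 := by omega
  have hk1 : n < 2 ^ k := by
    rw [hk]
    exact Nat.lt_pow_succ_log_self (by norm_num) n
  have hk2 : 2 ^ k ≤ n * 2 := by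
    rw [hk, pow_succ]
    exact Nat.mul_le_mul_right 2 (Nat.pow_log_le_self 2 hn0)
  have hk3 : k₀ + 64 < k := by
    have h1 : 2 ^ (k₀ + 64) < 2 ^ k := by omega
    exact (Nat.pow_lt_pow_iff_right (by norm_num)).1 h1
  have hkR : (64 : ℝ) < k := by exact_mod_cast (by omega : 64 < k)
  have hk0R : (0 : ℝ) < k := by linarith
  have hn64 : 1048576 ≤ n := by
    have h0 : 2 ^ 20 ≤ 2 ^ (k₀ + 64) := Nat.pow_le_pow_right (by norm_num) (by omega)
    have h1 : (2 : ℕ) ^ 20 = 1048576 := by norm_num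
    omega
  have hnn1 : n₁ ≤ n := by omega
  have hnn2 : n₂ ≤ n := by omega
  clear hn hpow0
  have hnR : (1048576 : ℝ) ≤ n := by exact_mod_cast hn64
  have hnpos : (0 : ℝ) < n := by linarith
  -- logarithms
  have hlogle : ∀ m : ℕ, 1 < m → m ≤ n → 0 < Real.log m ∧ Real.log m ≤ k := by
    intro m hm1 hmn
    refine ⟨Real.log_pos (by exact_mod_cast hm1), ?_⟩
    have h1 : Real.log m ≤ Real.log ((2 : ℝ) ^ k) :=
      Real.log_le_log (by exact_mod_cast (by omega : 0 < m)) (by exact_mod_cast (by omega : m ≤ 2 ^ k))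
    rw [Real.log_pow] at h1
    have h2 := Real.log_two_lt_d9
    calc Real.log m ≤ k * Real.log 2 := h1
      _ ≤ k * 1 := mul_le_mul_of_nonneg_left (by linarith) hk0R.le
      _ = k := mul_one _
  have hk3log : (k : ℝ) ≤ 3 * Real.log n := by
    have h1 : Real.log ((2 : ℝ) ^ k) ≤ Real.log (n * 2) :=
      Real.log_le_log (by positivity) (by exact_mod_cast hk2)
    rw [Real.log_pow, Real.log_mul hnpos.ne' (by norm_num)] at h1
    have h5 := Real.log_two_gt_d9
    have h6 := Real.log_two_lt_d9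
    nlinarith
  have hexc := hk₀ k (by omega)
  have h2k : (2 : ℝ) ^ k ≤ n * 2 := by exact_mod_cast hk2
  have hexc2 : ((exc k).card : ℝ) ≤ 2 * n / (k : ℝ) ^ 3 := by
    refine hexc.trans ?_
    apply div_le_div_of_nonneg_right _ (by positivity)
    linarith
  -- an auxiliary good number
  obtain ⟨m₀, hm₀1, hm₀2, hm₀3⟩ : ∃ m, n ≤ 4 * m ∧ 2 * m ≤ n ∧ WinP (1 / 2) 1 m := by
    by_contra hcon
    push Not at hcon
    have h1 : (Icc (n / 8 + 1) (n / 4)).image (fun i => 2 * i) ⊆ exc k := by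
      intro m hm
      rw [mem_image] at hm
      obtain ⟨i, hi, rfl⟩ := hm
      rw [mem_Icc] at hi
      rw [mem_exc]
      refine ⟨by omega, by omega, ⟨i, rfl⟩, hcon _ (by omega) (by omega)⟩
    have h2 := card_le_card h1
    rw [card_image_of_injective _ (fun a b h => by simpa using h), Nat.card_Icc] at h2
    have h4 : (n : ℝ) / 10 ≤ (exc k).card := by
      have : n ≤ 10 * (exc k).card := by omega
      have : (n : ℝ) ≤ 10 * (exc k).card := by exact_mod_cast this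
      linarith
    have h5 := h4.trans hexc2
    rw [le_div_iff₀ (by positivity)] at h5
    have h6 : (64 : ℝ) ^ 3 ≤ (k : ℝ) ^ 3 := pow_le_pow_left₀ (by norm_num) hkR.le 3
    nlinarith
  obtain ⟨P1, hP1⟩ : ∃ P1 : Finset ℕ, P1 = (Ioc 0 m₀).filter (fun p => p.Prime ∧ (m₀ - p).Prime) :=
    ⟨_, rfl⟩
  have hm₀R : (n : ℝ) ≤ 4 * m₀ := by exact_mod_cast hm₀1
  have hP1card : (n : ℝ) / (8 * (k : ℝ) ^ 2) ≤ P1.card := by
    obtain ⟨hl0, hl1⟩ := hlogle m₀ (by omega) (by omega)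
    have hlog1 : 1 ≤ Real.log m₀ := by
      rw [Real.le_log_iff_exp_le (by linarith)]
      have := Real.exp_one_lt_d9
      linarith
    have h1 := cnt_lower hm₀3 (by omega : 0 < m₀) le_rfl (by
      rw [Nat.cast_zero, sub_zero]
      exact div_le_self (by linarith) hlog1)
    rw [Nat.cast_zero, sub_zero, cnt, ← hP1] at h1
    refine le_trans ?_ h1
    rw [div_le_div_iff₀ (by positivity) (by positivity)]
    have h2 : Real.log m₀ ^ 2 ≤ (k : ℝ) ^ 2 := pow_le_pow_left₀ hl0.le hl1 2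
    nlinarith [mul_le_mul hm₀R h2 (by positivity) (by positivity)]
  obtain ⟨P2, hP2⟩ : ∃ P2 : Finset ℕ, P2 = P1.filter fun p => p ≠ 2 ∧ n - p ∉ exc k := ⟨_, rfl⟩
  have hP2card : (n : ℝ) / (16 * (k : ℝ) ^ 2) ≤ P2.card := by
    have h1 : P1 ⊆ P2 ∪ ({2} ∪ (exc k).image fun m => n - m) := by
      intro p hp
      rw [mem_union, mem_union, mem_singleton, mem_image]
      by_cases h2 : p = 2
      · exact Or.inr (Or.inl h2)
      · by_cases h3 : n - p ∈ exc k
        · refine Or.inr (Or.inr ⟨n - p, h3, ?_⟩)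
          rw [hP1, mem_filter, mem_Ioc] at hp
          omega
        · left
          rw [hP2, mem_filter]
          exact ⟨hp, h2, h3⟩
    have h2 := card_le_card h1
    have h3 := card_union_le P2 ({2} ∪ (exc k).image fun m => n - m)
    have h4 := card_union_le ({2} : Finset ℕ) ((exc k).image fun m => n - m)
    have h5 : ((exc k).image fun m => n - m).card ≤ (exc k).card := card_image_le
    rw [card_singleton] at h4
    have h6 : P1.card ≤ P2.card + (1 + (exc k).card) := by omega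
    have h7 : (P1.card : ℝ) ≤ P2.card + (1 + (exc k).card) := by exact_mod_cast h6
    have h8 : 2 * (n : ℝ) / (k : ℝ) ^ 3 ≤ n / (32 * (k : ℝ) ^ 2) := by
      rw [div_le_div_iff₀ (by positivity) (by positivity)]
      have h9 : (k : ℝ) ^ 3 = k * (k : ℝ) ^ 2 := by ring
      rw [h9]
      have h10 : 0 < (n : ℝ) * (k : ℝ) ^ 2 := by positivity
      nlinarith
    have h9 : (1 : ℝ) ≤ n / (32 * (k : ℝ) ^ 2) := by
      rw [le_div_iff₀ (by positivity), one_mul]
      have h10 := hn₂ n hnn2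
      rw [Real.rpow_one] at h10
      have h11 : (k : ℝ) ^ 2 ≤ (3 * Real.log n) ^ 2 := pow_le_pow_left₀ hk0R.le hk3log 2
      nlinarith
    have h10 : (n : ℝ) / (8 * (k : ℝ) ^ 2) = n / (16 * (k : ℝ) ^ 2) + (n / (32 * (k : ℝ) ^ 2) +
        n / (32 * (k : ℝ) ^ 2)) := by
      field_simp
      norm_num
    linarith
  -- the triples
  have hlow : ∀ p ∈ P2, (n : ℝ) / (4 * (k : ℝ) ^ 2) ≤
      ((Sol (k := 2) N (fun _ => 1) ((n - p : ℕ) : ℤ)).card : ℝ) := by
    intro p hp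
    rw [hP2, mem_filter, hP1, mem_filter, mem_Ioc] at hp
    obtain ⟨⟨⟨hp0, hpm⟩, hpp, _⟩, hp2, hpe⟩ := hp
    have hpodd : Odd p := hpp.odd_of_ne_two hp2
    have heven : Even (n - p) := Nat.Odd.sub_odd hodd hpodd
    have hwin : WinP (1 / 2) 1 (n - p) := by
      by_contra hcon
      apply hpe
      rw [mem_exc]
      exact ⟨by omega, by omega, heven.two_dvd, hcon⟩
    refine le_trans ?_ (sol2_lower (by omega) (by omega) hwin)
    obtain ⟨hl0, hl1⟩ := hlogle (n - p) (by omega) (by omega)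
    have h1 : (n : ℝ) ≤ 2 * ((n - p : ℕ) : ℝ) := by exact_mod_cast (by omega : n ≤ 2 * (n - p))
    rw [div_le_div_iff₀ (by positivity) (by positivity)]
    have h2 : Real.log ((n - p : ℕ) : ℝ) ^ 2 ≤ (k : ℝ) ^ 2 := pow_le_pow_left₀ hl0.le hl1 2
    nlinarith [mul_le_mul h1 h2 (by positivity) (by positivity)]
  have hsum : ∑ p ∈ P2, (Sol (k := 2) N (fun _ => 1) ((n - p : ℕ) : ℤ)).card ≤
      (Sol (k := 3) N (fun _ => 1) (n : ℤ)).card := by
    rw [← card_sigma]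
    refine card_le_card_of_injOn (fun z => ![z.1, z.2 0, z.2 1]) ?_ ?_
    · intro z hz
      rw [mem_coe, mem_sigma, mem_Sol, hP2, mem_filter, hP1, mem_filter, mem_Ioc] at hz
      obtain ⟨⟨⟨⟨hp0, hpm⟩, hpp, _⟩, hp2, hpe⟩, hz2, hz3⟩ := hz
      rw [mem_coe, mem_Sol]
      refine ⟨fun i => ?_, ?_⟩
      · fin_cases i
        · exact mem_PP.2 ⟨by simp only [Fin.zero_eta, Matrix.cons_val_zero]; omega, hpp⟩
        · exact hz2 0
        · exact hz2 1
      · rw [Fin.sum_univ_two] at hz3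
        rw [Fin.sum_univ_three]
        simp only [Matrix.cons_val_zero, Matrix.cons_val_one, Matrix.cons_val, one_mul] at hz3 ⊢
        omega
    · rintro ⟨p, z⟩ _ ⟨q, w⟩ _ h
      have h0 : p = q := congrFun h 0
      have h1 : z 0 = w 0 := congrFun h 1
      have h2 : z 1 = w 1 := congrFun h 2
      subst h0
      have h3 : z = w := by
        funext i
        fin_cases i
        · exact h1
        · exact h2
      rw [h3]
  have hfin : (P2.card : ℝ) * (n / (4 * (k : ℝ) ^ 2)) ≤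
      ((Sol (k := 3) N (fun _ => 1) (n : ℤ)).card : ℝ) := by
    refine le_trans ?_ (Nat.cast_le.2 hsum)
    rw [Nat.cast_sum, ← nsmul_eq_mul, ← sum_const]
    exact sum_le_sum hlow
  refine le_trans ?_ hfin
  have h1 : (n : ℝ) / (16 * (k : ℝ) ^ 2) * (n / (4 * (k : ℝ) ^ 2)) ≤
      (P2.card : ℝ) * (n / (4 * (k : ℝ) ^ 2)) := by gcongr
  refine le_trans ?_ h1
  have h2 : (n : ℝ) / (16 * (k : ℝ) ^ 2) * (n / (4 * (k : ℝ) ^ 2)) = (n : ℝ) ^ 2 / (64 * (k : ℝ) ^ 4) := by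
    field_simp
    norm_num
  rw [h2, le_div_iff₀ (by positivity)]
  have h3 : 64 * (k : ℝ) ^ 4 ≤ (n : ℝ) ^ ε := by
    have h4 := hn₁ n hnn1
    have h5 : (k : ℝ) ^ 4 ≤ (3 * Real.log n) ^ 4 := pow_le_pow_left₀ hk0R.le hk3log 4
    nlinarith
  calc (n : ℝ) ^ (2 - ε) * (64 * (k : ℝ) ^ 4) ≤ (n : ℝ) ^ (2 - ε) * (n : ℝ) ^ ε := by gcongr
    _ = (n : ℝ) ^ 2 := by
        rw [← Real.rpow_add hnpos, sub_add_cancel, ← Real.rpow_natCast]
        norm_num

end Pool.Agent.T2h20.GB
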