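import Mathlib
import Pool.Agent.T2h20.GB.Gold

/-!
Additive problems with primes and a generic real number.
-/

set_option autoImplicit false

namespace Pool.Agent.T2h20.GB

open Finset hiding val
open Pool.Agent.W93.PG (WinP cnt)
open Pool.Agent.T6.H18.HH (exc mem_exc card_exc cnt_lower)
open Pool.Agent.Z3h92 (Dio)

/-- `m = p + q` with primes `p`, `q` and `c x p + β` in any prescribed arc of length `N ^ (-δ)` modulo
one -/
def TwoP (δ : ℝ) (N : ℕ) (x : ℝ) (m : ℕ) : Prop :=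
  ∀ (c : ℤ) (β lo hi : ℝ), c ≠ 0 → |(c : ℝ)| ≤ (N : ℝ) ^ δ → 0 ≤ lo → hi ≤ 1 →
    (N : ℝ) ^ (-δ) ≤ hi - lo →
    ∃ p q : ℕ, p.Prime ∧ q.Prime ∧ p + q = m ∧ lo ≤ Int.fract (c * x * p + β) ∧
      Int.fract (c * x * p + β) < hi

/-- `n = p + q + r` with primes `p`, `q`, `r` and `c x p + β`, `c' x q + β'` in any prescribed arcs of
length `N ^ (-δ)` modulo one -/
def ThreeP (δ : ℝ) (N : ℕ) (x : ℝ) (n : ℕ) : Prop :=
  ∀ (c c' : ℤ) (β lo hi β' lo' hi' : ℝ), c ≠ 0 → |(c : ℝ)| ≤ (N : ℝ) ^ δ → c' ≠ 0 →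
    |(c' : ℝ)| ≤ (N : ℝ) ^ δ → 0 ≤ lo → hi ≤ 1 → (N : ℝ) ^ (-δ) ≤ hi - lo → 0 ≤ lo' → hi' ≤ 1 →
    (N : ℝ) ^ (-δ) ≤ hi' - lo' →
    ∃ p q r : ℕ, p.Prime ∧ q.Prime ∧ r.Prime ∧ p + q + r = n ∧
      lo ≤ Int.fract (c * x * p + β) ∧ Int.fract (c * x * p + β) < hi ∧
      lo' ≤ Int.fract (c' * x * q + β') ∧ Int.fract (c' * x * q + β') < hi'

/-- The real number `x` behaves like a generic number, at the scale `N`, in the linear equations
between primes. -/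
structure Additive (δ : ℝ) (k U N : ℕ) (x : ℝ) : Prop where
  /-- for all equations `a₁ p₁ + ⋯ + a_j p_j = n` in `3 ≤ j ≤ k` primes `p_i ≤ N` -/
  many : ∀ j : ℕ, 3 ≤ j → j ≤ k → ∀ (a : Fin j → ℤ) (n : ℤ), (∀ i, a i ≠ 0) →
    (∀ i, |(a i : ℝ)| ≤ (N : ℝ) ^ δ) → Eqd δ N x a n ((N : ℝ) ^ ((j : ℝ) - 1 - δ))
  /-- for all equations `a₁ p₁ + a₂ p₂ = n` in primes `p_i ≤ N`, outside an exceptional set of `n` -/
  two : ∃ X : Finset ℤ, (X.card : ℝ) ≤ (N : ℝ) ^ (1 - δ) ∧ ∀ n : ℤ, n ∉ X → ∀ a : Fin 2 → ℤ,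
    (∀ i, a i ≠ 0) → (∀ i, |(a i : ℝ)| ≤ (N : ℝ) ^ δ) → Eqd δ N x a n ((N : ℝ) ^ (1 - δ))
  /-- Goldbach's problem with primes in prescribed arcs, for almost all even numbers -/
  goldbach : ({m : ℕ | m ≤ N ∧ Even m ∧ ¬ TwoP δ N x m}.ncard : ℝ) ≤ N / Real.log N ^ U
  /-- Vinogradov's theorem with primes in prescribed arcs -/
  vinogradov : ∀ n : ℕ, Odd n → (N : ℝ) ^ (1 - δ) ≤ n → n ≤ N → ThreeP δ N x n

lemma Eqd.mono {k : ℕ} {δ δ' : ℝ} {N : ℕ} {x : ℝ} {a : Fin k → ℤ} {n : ℤ} {err err' : ℝ}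
    (h : Eqd δ N x a n err) (hN : 1 ≤ N) (hδ : δ' ≤ δ) (he : err ≤ err') : Eqd δ' N x a n err' := by
  intro i₀ c β lo hi hc hcN hlo hlohi hhi
  refine (h i₀ c β lo hi hc (fun i => (hcN i).trans ?_) hlo hlohi hhi).trans he
  exact Real.rpow_le_rpow_of_exponent_le (by exact_mod_cast hN) hδ

/-- from `WinP` and the equidistribution to the representation by two primes -/
lemma twoP_of {δ δ₀ B : ℝ} {N m : ℕ} {x : ℝ} (U : ℕ) (hN : 3 ≤ N) (hδ : 0 < δ) (hδδ : δ ≤ δ₀)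
    (hB : 2 * B * Real.log N ^ (U + 3) < (N : ℝ) ^ δ₀) (hm : m ≤ N)
    (hmN : (N : ℝ) / Real.log N ^ (U + 1) ≤ m) (hm3 : 3 ≤ m) (hwin : WinP (1 / 2) 1 m)
    (heq : Eqd (k := 2) δ₀ N x (fun _ => 1) m (B * (N : ℝ) ^ (1 - 2 * δ₀))) : TwoP δ N x m := by
  intro c β lo hi hc hcN hlo hhi hlen
  have hN3 : (3 : ℝ) ≤ N := by exact_mod_cast hN
  have hN0 : (0 : ℝ) < N := by linarith
  have hN1 : (1 : ℝ) ≤ N := by linarith
  have hm3R : (3 : ℝ) ≤ m := by exact_mod_cast hm3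
  have hlogN : 0 < Real.log N := Real.log_pos (by linarith)
  have hlogm : 0 < Real.log m := Real.log_pos (by linarith)
  have hlen0 : (0 : ℝ) < (N : ℝ) ^ (-δ) := Real.rpow_pos_of_pos hN0 _
  have h1 := heq 1 (fun _ => c) (fun _ => β) (fun _ => lo) (fun _ => hi) (fun _ => hc)
    (fun _ => hcN.trans (Real.rpow_le_rpow_of_exponent_le hN1 hδδ)) (fun _ => hlo)
    (fun _ => by linarith) (fun _ => hhi)
  have h2 : ∏ i ∈ univ.erase (1 : Fin 2), (hi - lo) = hi - lo := by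
    rw [prod_const, card_erase_of_mem (mem_univ _), card_univ, Fintype.card_fin]
    simp
  rw [h2] at h1
  have h3 := sol2_lower (N := N) hm3 hm hwin
  have h4 : B * (N : ℝ) ^ (1 - 2 * δ₀) < (hi - lo) *
      ((Sol (k := 2) N (fun _ => 1) (m : ℤ)).card : ℝ) := by
    have h5 : (N : ℝ) / (2 * Real.log N ^ (U + 3)) ≤
        ((Sol (k := 2) N (fun _ => 1) (m : ℤ)).card : ℝ) := by
      refine le_trans ?_ h3
      have h6 : Real.log m ≤ Real.log N := Real.log_le_log (by linarith) (by exact_mod_cast hm)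
      have h7 : Real.log m ^ 2 ≤ Real.log N ^ 2 := pow_le_pow_left₀ hlogm.le h6 2
      calc (N : ℝ) / (2 * Real.log N ^ (U + 3)) = (N / Real.log N ^ (U + 1)) / (2 * Real.log N ^ 2) := by
            field_simp
            ring
        _ ≤ m / (2 * Real.log m ^ 2) := by
            apply div_le_div₀ (by linarith) hmN (by positivity)
            linarith
    have h6 : B * (N : ℝ) ^ (1 - 2 * δ₀) < (N : ℝ) ^ (-δ) * ((N : ℝ) / (2 * Real.log N ^ (U + 3))) := by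
      rw [← mul_div_assoc, lt_div_iff₀ (by positivity)]
      have h7 : (N : ℝ) ^ (1 - 2 * δ₀) * (N : ℝ) ^ δ₀ ≤ (N : ℝ) ^ (-δ) * N := by
        rw [← Real.rpow_add hN0]
        calc (N : ℝ) ^ (1 - 2 * δ₀ + δ₀) ≤ (N : ℝ) ^ (-δ + 1) :=
              Real.rpow_le_rpow_of_exponent_le hN1 (by linarith)
          _ = _ := by rw [Real.rpow_add hN0, Real.rpow_one]
      have h8 : (0 : ℝ) < (N : ℝ) ^ (1 - 2 * δ₀) := Real.rpow_pos_of_pos hN0 _
      calc B * (N : ℝ) ^ (1 - 2 * δ₀) * (2 * Real.log N ^ (U + 3)) =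
            (N : ℝ) ^ (1 - 2 * δ₀) * (2 * B * Real.log N ^ (U + 3)) := by ring
        _ < (N : ℝ) ^ (1 - 2 * δ₀) * (N : ℝ) ^ δ₀ := mul_lt_mul_of_pos_left hB h8
        _ ≤ _ := h7
    refine lt_of_lt_of_le h6 ?_
    apply mul_le_mul hlen h5 (by positivity) (by linarith)
  have h5 := (abs_le.1 h1).1
  have h6 : (0 : ℝ) < (((Sol (k := 2) N (fun _ => 1) (m : ℤ)).filter fun p => ∀ i, i ≠ (1 : Fin 2) →
      lo ≤ Int.fract (c * x * p i + β) ∧ Int.fract (c * x * p i + β) < hi).card : ℝ) := by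
    linarith
  have h7 : 0 < ((Sol (k := 2) N (fun _ => 1) (m : ℤ)).filter fun p => ∀ i, i ≠ (1 : Fin 2) →
      lo ≤ Int.fract (c * x * p i + β) ∧ Int.fract (c * x * p i + β) < hi).card := by
    exact_mod_cast h6
  obtain ⟨p, hp⟩ := card_pos.1 h7
  rw [mem_filter, mem_Sol] at hp
  obtain ⟨⟨hp1, hp2⟩, hp3⟩ := hp
  have h8 := hp3 0 (by decide)
  rw [Fin.sum_univ_two] at hp2
  exact ⟨p 0, p 1, (mem_PP.1 (hp1 0)).2, (mem_PP.1 (hp1 1)).2, by omega, h8.1, h8.2⟩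

lemma threeP_of {δ δ₀ B : ℝ} {N n : ℕ} {x : ℝ} (hN : 3 ≤ N) (hδ : 0 < δ) (hδδ : 4 * δ ≤ δ₀)
    (hδ1 : δ ≤ 1) (hB : B < (N : ℝ) ^ (3 * δ)) (hnN : (N : ℝ) ^ (1 - δ) ≤ n)
    (hcard : (n : ℝ) ^ (2 - δ) ≤ ((Sol (k := 3) N (fun _ => 1) (n : ℤ)).card : ℝ))
    (heq : Eqd (k := 3) δ₀ N x (fun _ => 1) n (B * (N : ℝ) ^ (((3 : ℕ) : ℝ) - 1 - 2 * δ₀))) :
    ThreeP δ N x n := by
  intro c c' β lo hi β' lo' hi' hc hcN hc' hcN' hlo hhi hlen hlo' hhi' hlen'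
  have hN3 : (3 : ℝ) ≤ N := by exact_mod_cast hN
  have hN0 : (0 : ℝ) < N := by linarith
  have hN1 : (1 : ℝ) ≤ N := by linarith
  have hlen0 : (0 : ℝ) < (N : ℝ) ^ (-δ) := Real.rpow_pos_of_pos hN0 _
  have hδ₀ : δ ≤ δ₀ := by linarith
  have hpowδ : (N : ℝ) ^ δ ≤ (N : ℝ) ^ δ₀ := Real.rpow_le_rpow_of_exponent_le hN1 hδ₀
  have h1 := heq 2 (![c, c', 1]) (![β, β', 0]) (![lo, lo', 0]) (![hi, hi', 1])
    (fun i => by fin_cases i <;> simp [hc, hc'])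
    (fun i => by
      fin_cases i
      · exact hcN.trans hpowδ
      · exact hcN'.trans hpowδ
      · simp only [Fin.reduceFinMk, Matrix.cons_val, Int.cast_one, abs_one]
        exact Real.one_le_rpow hN1 (by linarith))
    (fun i => by fin_cases i <;> simp [hlo, hlo'])
    (fun i => by
      fin_cases i
      · simp; linarith
      · simp; linarith
      · simp)
    (fun i => by fin_cases i <;> simp [hhi, hhi'])
  have h2 : ∏ i ∈ univ.erase (2 : Fin 3), ((![hi, hi', 1] : Fin 3 → ℝ) i -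
      (![lo, lo', 0] : Fin 3 → ℝ) i) = (hi - lo) * (hi' - lo') := by
    have h3 : (univ.erase (2 : Fin 3)) = {0, 1} := by decide
    rw [h3, prod_insert (by decide), prod_singleton]
    simp
  rw [h2] at h1
  have h4 : B * (N : ℝ) ^ (((3 : ℕ) : ℝ) - 1 - 2 * δ₀) < (hi - lo) * (hi' - lo') *
      ((Sol (k := 3) N (fun _ => 1) (n : ℤ)).card : ℝ) := by
    have h5 : (N : ℝ) ^ ((1 - δ) * (2 - δ)) ≤ ((Sol (k := 3) N (fun _ => 1) (n : ℤ)).card : ℝ) := by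
      refine le_trans ?_ hcard
      rw [Real.rpow_mul hN0.le]
      exact Real.rpow_le_rpow (by positivity) hnN (by linarith)
    have h6 : (N : ℝ) ^ (-δ) * (N : ℝ) ^ (-δ) * (N : ℝ) ^ ((1 - δ) * (2 - δ)) ≤
        (hi - lo) * (hi' - lo') * ((Sol (k := 3) N (fun _ => 1) (n : ℤ)).card : ℝ) := by
      apply mul_le_mul _ h5 (by positivity)
      · have a1 : 0 ≤ hi - lo := by linarith
        have a2 : 0 ≤ hi' - lo' := by linarith
        positivity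
      · apply mul_le_mul hlen hlen' hlen0.le
        linarith
    refine lt_of_lt_of_le ?_ h6
    have h7 : (0 : ℝ) < (N : ℝ) ^ (((3 : ℕ) : ℝ) - 1 - 2 * δ₀) := Real.rpow_pos_of_pos hN0 _
    calc B * (N : ℝ) ^ (((3 : ℕ) : ℝ) - 1 - 2 * δ₀) <
          (N : ℝ) ^ (3 * δ) * (N : ℝ) ^ (((3 : ℕ) : ℝ) - 1 - 2 * δ₀) := mul_lt_mul_of_pos_right hB h7
      _ = (N : ℝ) ^ (3 * δ + (((3 : ℕ) : ℝ) - 1 - 2 * δ₀)) := by rw [← Real.rpow_add hN0]
      _ ≤ (N : ℝ) ^ (-δ + -δ + (1 - δ) * (2 - δ)) := by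
          apply Real.rpow_le_rpow_of_exponent_le hN1
          push_cast
          nlinarith [sq_nonneg δ]
      _ = _ := by rw [Real.rpow_add hN0, Real.rpow_add hN0]
  have h5 := (abs_le.1 h1).1
  have h6 : (0 : ℝ) < (((Sol (k := 3) N (fun _ => 1) (n : ℤ)).filter fun p => ∀ i, i ≠ (2 : Fin 3) →
      (![lo, lo', 0] : Fin 3 → ℝ) i ≤ Int.fract ((![c, c', 1] : Fin 3 → ℤ) i * x * p i +
        (![β, β', 0] : Fin 3 → ℝ) i) ∧ Int.fract ((![c, c', 1] : Fin 3 → ℤ) i * x * p i +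
        (![β, β', 0] : Fin 3 → ℝ) i) < (![hi, hi', 1] : Fin 3 → ℝ) i).card : ℝ) := by
    linarith
  have h7 := Nat.cast_pos.1 h6
  obtain ⟨p, hp⟩ := card_pos.1 h7
  rw [mem_filter, mem_Sol] at hp
  obtain ⟨⟨hp1, hp2⟩, hp3⟩ := hp
  have h8 := hp3 0 (by decide)
  have h9 := hp3 1 (by decide)
  rw [Fin.sum_univ_three] at hp2
  exact ⟨p 0, p 1, p 2, (mem_PP.1 (hp1 0)).2, (mem_PP.1 (hp1 1)).2, (mem_PP.1 (hp1 2)).2, by omega,
    h8.1, h8.2, h9.1, h9.2⟩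

/-- **Main theorem.** -/
theorem additive_of_dio (η : ℝ) (hη : 0 < η) (hη1 : η ≤ 1 / 2) (k U : ℕ) : ∃ δ : ℝ, 0 < δ ∧ δ ≤ η ∧
    ∃ N₀ : ℕ, ∀ (N : ℕ) (x : ℝ), N₀ ≤ N → Dio η N x → Additive δ k U N x := by
  classical
  obtain ⟨δ₀, hδ₀⟩ : ∃ δ₀ : ℝ, δ₀ = η / (128 * ((k + 3 : ℕ) + 3)) := ⟨_, rfl⟩
  have hkR : (0 : ℝ) < 128 * (((k + 3 : ℕ) : ℝ) + 3) := by positivity
  have hδ0 : 0 < δ₀ := by rw [hδ₀]; positivity
  have hδk : δ₀ * (128 * (((k + 3 : ℕ) : ℝ) + 3)) = η := by rw [hδ₀]; field_simp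
  have hδ384 : 384 * δ₀ ≤ η := by
    rw [← hδk]
    push_cast
    nlinarith
  obtain ⟨B₁, hB₁, h3⟩ := lin3 η hη hη1 (k + 3) δ₀ hδ₀
  obtain ⟨B₂, hB₂, h2⟩ := lin2 η hη hη1 δ₀ hδ0 hδ384
  obtain ⟨δ, hδ⟩ : ∃ δ : ℝ, δ = δ₀ / 4 := ⟨_, rfl⟩
  have hδpos : 0 < δ := by rw [hδ]; positivity
  obtain ⟨n₀, hn₀⟩ := sol3_lower δ hδpos
  obtain ⟨k₀, hk₀⟩ := card_exc (U + 1)
  obtain ⟨M1, hM1⟩ := ev_log 0 δ₀ (B₁ + B₂) hδ0
  obtain ⟨M2, hM2⟩ := ev_log (U + 3) δ₀ (2 * B₂ + 1) hδ0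
  obtain ⟨M3, hM3⟩ := ev_log U (2 * δ₀) (2 * (B₂ + 1)) (by positivity)
  obtain ⟨M4, hM4⟩ := ev_log 0 (3 * δ) (B₁ + 1) (by positivity)
  obtain ⟨M5, hM5⟩ := ev_log (U + 1) 1 4 one_pos
  obtain ⟨M6, hM6⟩ : ∃ M6 : ℕ, ∀ N : ℕ, M6 ≤ N → (n₀ : ℝ) ≤ (N : ℝ) ^ (1 - δ) := by
    have h1 : Filter.Tendsto (fun N : ℕ => (N : ℝ) ^ (1 - δ)) Filter.atTop Filter.atTop :=
      (tendsto_rpow_atTop (by linarith)).comp tendsto_natCast_atTop_atTop
    exact Filter.eventually_atTop.1 (h1.eventually_ge_atTop (n₀ : ℝ))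
  obtain ⟨T, hT20, hTκ⟩ : ∃ T : ℕ, 1048576 ≤ T ∧ ∀ κ, T < 2 ^ κ → k₀ + 20 < κ := by
    refine ⟨2 ^ (k₀ + 20), ?_, fun κ h => (Nat.pow_lt_pow_iff_right (by norm_num)).1 h⟩
    have hpow0 : 2 ^ 20 ≤ 2 ^ (k₀ + 20) := Nat.pow_le_pow_right (by norm_num) (by omega)
    exact le_trans (by norm_num) hpow0
  refine ⟨δ, hδpos, by linarith, M1 + M2 + M3 + M4 + M5 + M6 + T, ?_⟩
  intro N x hN hD
  have hN' : 1048576 ≤ N := by omega
  have hNR : (1048576 : ℝ) ≤ N := by exact_mod_cast hN'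
  have hN0 : (0 : ℝ) < N := by linarith
  have hN1 : (1 : ℝ) ≤ N := by linarith
  have hδδ : δ ≤ δ₀ := by linarith
  have hlog9 : 9 ≤ Real.log N := by
    rw [Real.le_log_iff_exp_le hN0]
    have h1 := Real.exp_one_lt_d9
    have h2 : Real.exp 9 = Real.exp 1 ^ 9 := by rw [← Real.exp_nat_mul]; norm_num
    rw [h2]
    calc Real.exp 1 ^ 9 ≤ 2.7182818286 ^ 9 := pow_le_pow_left₀ (Real.exp_pos _).le h1.le 9
      _ ≤ N := by norm_num; linarith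
  have hlogpos : 0 < Real.log N := by linarith
  have hB1le : ∀ s : ℝ, B₁ * (N : ℝ) ^ (s - 2 * δ₀) ≤ (N : ℝ) ^ (s - δ) ∧
      B₂ * (N : ℝ) ^ (s - 2 * δ₀) ≤ (N : ℝ) ^ (s - δ) := by
    intro s
    have h4 := hM1 N (by omega)
    rw [pow_zero, mul_one] at h4
    have h5 : (N : ℝ) ^ δ₀ * (N : ℝ) ^ (s - 2 * δ₀) ≤ (N : ℝ) ^ (s - δ) := by
      rw [← Real.rpow_add hN0]
      exact Real.rpow_le_rpow_of_exponent_le hN1 (by linarith)
    have h6 : (0 : ℝ) < (N : ℝ) ^ (s - 2 * δ₀) := Real.rpow_pos_of_pos hN0 _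
    constructor <;> nlinarith
  obtain ⟨X, hXcard, hX⟩ := h2 N x (by omega) hD
  refine ⟨?_, ?_, ?_, ?_⟩
  · intro j hj3 hjk a n ha0 haN
    exact (h3 N x (by omega) hD j hj3 (by omega) a n ha0
      (fun i => (haN i).trans (Real.rpow_le_rpow_of_exponent_le hN1 hδδ))).mono (by omega) hδδ
      (hB1le _).1
  · refine ⟨X, hXcard.trans (hB1le 1).2, fun n hn a ha0 haN => ?_⟩
    exact (hX n hn a ha0
      (fun i => (haN i).trans (Real.rpow_le_rpow_of_exponent_le hN1 hδδ))).mono (by omega) hδδ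
      (hB1le 1).2
  · -- Goldbach
    obtain ⟨κ, hκ⟩ : ∃ κ, κ = Nat.log 2 N + 1 := ⟨_, rfl⟩
    have hκ1 : N < 2 ^ κ := by
      rw [hκ]
      exact Nat.lt_pow_succ_log_self (by norm_num) N
    have hκ2 : 2 ^ κ ≤ N * 2 := by
      rw [hκ, pow_succ]
      exact Nat.mul_le_mul_right 2 (Nat.pow_log_le_self 2 (by omega))
    have hκ3 : k₀ + 20 < κ := hTκ κ (by omega)
    have hκlog : Real.log N ≤ κ := by
      have h1 : Real.log N ≤ Real.log ((2 : ℝ) ^ κ) :=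
        Real.log_le_log hN0 (by exact_mod_cast hκ1.le)
      rw [Real.log_pow] at h1
      have := Real.log_two_lt_d9
      have : (0 : ℝ) ≤ κ := Nat.cast_nonneg _
      nlinarith
    obtain ⟨y, hy⟩ : ∃ y : ℝ, y = (N : ℝ) / Real.log N ^ (U + 1) := ⟨_, rfl⟩
    have hy0 : 0 ≤ y := by rw [hy]; positivity
    have hy4 : 4 ≤ y := by
      rw [hy, le_div_iff₀ (by positivity)]
      have := hM5 N (by omega)
      rwa [Real.rpow_one] at this
    have hsub : {m : ℕ | m ≤ N ∧ Even m ∧ ¬ TwoP δ N x m} ⊆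
        ((range (⌊y⌋₊ + 1) ∪ (exc κ ∪ X.image Int.toNat) : Finset ℕ) : Set ℕ) := by
      rintro m ⟨hmN, hme, hmT⟩
      rw [mem_coe, mem_union, mem_union, mem_range, mem_image]
      by_contra hcon
      rw [not_or, not_or] at hcon
      obtain ⟨hc1, hc2, hc3⟩ := hcon
      have hmy : y ≤ m := by
        have h4 : ⌊y⌋₊ < m := by omega
        exact ((Nat.floor_lt hy0).1 h4).le
      have hm4 : 4 ≤ m := by
        have : (4 : ℝ) ≤ m := hy4.trans hmy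
        exact_mod_cast this
      have hwin : WinP (1 / 2) 1 m := by
        by_contra hw
        exact hc2 (mem_exc.2 ⟨by omega, by omega, hme.two_dvd, hw⟩)
      have hmX : (m : ℤ) ∉ X := fun h => hc3 ⟨m, h, by simp⟩
      apply hmT
      refine twoP_of (δ₀ := δ₀) (B := B₂) U (by omega) hδpos hδδ ?_ hmN (hy ▸ hmy) (by omega) hwin
        (hX m hmX (fun _ => 1) (fun _ => one_ne_zero) (fun _ => ?_))
      · have h4 := hM2 N (by omega)
        have h5 : 0 < Real.log N ^ (U + 3) := by positivity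
        nlinarith
      · rw [Int.cast_one, abs_one]
        exact Real.one_le_rpow hN1 hδ0.le
    have h4 := Set.ncard_le_ncard hsub (Finset.finite_toSet _)
    rw [Set.ncard_coe_finset] at h4
    have h5 := card_union_le (range (⌊y⌋₊ + 1)) (exc κ ∪ X.image Int.toNat)
    have h6 := card_union_le (exc κ) (X.image Int.toNat)
    have h7 : (X.image Int.toNat).card ≤ X.card := card_image_le
    rw [card_range] at h5
    have h8 : {m : ℕ | m ≤ N ∧ Even m ∧ ¬ TwoP δ N x m}.ncard ≤ ⌊y⌋₊ + 1 + ((exc κ).card + X.card) := by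
      omega
    have h9 : ({m : ℕ | m ≤ N ∧ Even m ∧ ¬ TwoP δ N x m}.ncard : ℝ) ≤
        ⌊y⌋₊ + 1 + ((exc κ).card + X.card) := by exact_mod_cast h8
    have h10 : (⌊y⌋₊ : ℝ) ≤ y := Nat.floor_le hy0
    have h11 : ((exc κ).card : ℝ) ≤ 2 * y := by
      refine (hk₀ κ (by omega)).trans ?_
      have h12 : (2 : ℝ) ^ κ ≤ N * 2 := by exact_mod_cast hκ2
      calc (2 : ℝ) ^ κ / (κ : ℝ) ^ (U + 1) ≤ (N * 2) / Real.log N ^ (U + 1) := by
            apply div_le_div₀ (by positivity) h12 (by positivity)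
            exact pow_le_pow_left₀ hlogpos.le hκlog _
        _ = 2 * y := by rw [hy]; ring
    have h12 : 3 * y ≤ (N : ℝ) / Real.log N ^ U / 2 := by
      have h13 : (N : ℝ) / Real.log N ^ U / 2 = y * (Real.log N / 2) := by
        rw [hy, pow_succ]
        field_simp
      rw [h13]
      nlinarith
    have h13 : 1 + (X.card : ℝ) ≤ (N : ℝ) / Real.log N ^ U / 2 := by
      rw [div_div, le_div_iff₀ (by positivity)]
      have h14 := hM3 N (by omega)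
      have h15 : (1 : ℝ) ≤ (N : ℝ) ^ (1 - 2 * δ₀) := Real.one_le_rpow hN1 (by linarith)
      have h16 : 1 + (X.card : ℝ) ≤ (B₂ + 1) * (N : ℝ) ^ (1 - 2 * δ₀) := by nlinarith
      calc (1 + (X.card : ℝ)) * (Real.log N ^ U * 2) ≤
            ((B₂ + 1) * (N : ℝ) ^ (1 - 2 * δ₀)) * (Real.log N ^ U * 2) := by gcongr
        _ = (N : ℝ) ^ (1 - 2 * δ₀) * (2 * (B₂ + 1) * Real.log N ^ U) := by ring
        _ ≤ (N : ℝ) ^ (1 - 2 * δ₀) * (N : ℝ) ^ (2 * δ₀) := by gcongr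
        _ = N := by rw [← Real.rpow_add hN0, sub_add_cancel, Real.rpow_one]
    linarith
  · -- Vinogradov
    intro n hodd hnN hn
    refine threeP_of (δ₀ := δ₀) (B := B₁) (by omega) hδpos (by rw [hδ]; linarith) (by linarith) ?_
      hnN (hn₀ n ?_ hodd N hn) (h3 N x (by omega) hD 3 le_rfl (by omega) (fun _ => 1) n
        (fun _ => one_ne_zero) (fun _ => ?_))
    · have h4 := hM4 N (by omega)
      rw [pow_zero, mul_one] at h4
      linarith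
    · have h4 := (hM6 N (by omega)).trans hnN
      exact_mod_cast h4
    · rw [Int.cast_one, abs_one]
      exact Real.one_le_rpow hN1 hδ0.le

end Pool.Agent.T2h20.GB
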